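import Pool.Agent.Work.MP_8c604c_gt.OT.BQ
import Pool.Agent.Work.MP_8c604c_gt.OB.Lp
import Pool.Agent.Work.MP_8c604c_gt.OG.HS
import Pool.Agent.Work.MP_8c604c_gt.OT.Loc

-- merged part: Pool.Agent.Work.MP_8c604c_gt.OT.Lp
section
/-!
The distance, moving along minimal geodesics, and Lipschitz loops (owner helper12).
-/

noncomputable section

set_option linter.unusedSectionVars false

namespace Pool.Agent.Work.MP_8c604c_gt.OT

open Set Real Topology Pool.Agent.Work.MP_849ab0_ag.G T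

variable {V : Type} [NormedAddCommGroup V] [InnerProductSpace ℝ V] [FiniteDimensional ℝ V]
  {𝕄 : Mf V} {k : ℕ}

theorem contOn_ite {X Y : Type} [TopologicalSpace X] [TopologicalSpace Y] {s : Set X} {u v : X → ℝ}
    {f g : X → Y} (hu : ContinuousOn u s) (hv : ContinuousOn v s) (hf : ContinuousOn f s)
    (hg : ContinuousOn g s) (e : ∀ x ∈ s, u x = v x → f x = g x) :
    ContinuousOn (fun x => if u x ≤ v x then f x else g x) s := by
  rw [continuousOn_iff_continuous_domRestrict] at *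
  exact Continuous.if_le hf hg hu hv fun x => e x.1 x.2

theorem sh_cs (c : LM V) (s t : ℝ) : sh (cs s) c (cs t) = c (cs (s + t)) := by rw [sh_apply, cs_add]

theorem sh_at_one (θ : Circle) (c : LM V) : sh θ c 1 = c θ := by rw [sh_apply, mul_one]

theorem TD0.exists_S (D : TD0 𝕄 k) {p : V} (hp : p ∈ 𝕄.M) : ∃ c ∈ D.S, c 1 = p := by
  have h := 𝕄.rb.rank p hp
  obtain ⟨u, ⟨a, rfl⟩, hu⟩ := Submodule.exists_mem_ne_zero_of_ne_bot
    (p := LinearMap.range (𝕄.tp p : V →ₗ[ℝ] V)) fun e => by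
      rw [e, finrank_bot] at h
      omega
  obtain ⟨c, hc, e, -⟩ := D.ex p _ ⟨hp, 𝕄.rb.idem p hp a⟩ hu
  exact ⟨c, hc, e⟩

theorem TD0.exists_ev (D : TD0 𝕄 k) {y : V × V} (h : y ∈ 𝕄.MM) :
    ∃ c ∈ D.S, ∃ t ∈ Icc 0 (π / 2), y = (c 1, c (cs t)) := by
  by_cases e : y.1 = y.2
  · obtain ⟨c, hc, k⟩ := D.exists_S h.1
    exact ⟨c, hc, 0, ⟨le_rfl, by positivity⟩, Prod.ext k.symm (by rw [cs_zero, k, e])⟩
  · obtain ⟨c, hc, k, t, ht, k'⟩ := D.surj _ h.1 _ h.2 e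
    exact ⟨c, hc, t, ⟨ht.1.le, ht.2⟩, Prod.ext k.symm k'.symm⟩

namespace TD1

variable (D : TD1 𝕄) {p q : V} {y : V × V} {c : LM V} {s t τ : ℝ}

theorem d_eq (h : y ∈ 𝕄.MM) : D.d y.1 y.2 = D.lt y := by
  obtain ⟨c, hc, t, ht, rfl⟩ := D.exists_ev h
  rw [D.lt_eq hc ht]
  exact D.dS c hc t ht

theorem cont_d : ContinuousOn (fun y : V × V => D.d y.1 y.2) 𝕄.MM :=
  D.cont_lt.congr fun _ h => D.d_eq h

theorem contOn_d {X : Type} [TopologicalSpace X] {A : Set X} {f g : X → V} (hf : ContinuousOn f A)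
    (hg : ContinuousOn g A) (m : ∀ x ∈ A, f x ∈ 𝕄.M) (m' : ∀ x ∈ A, g x ∈ 𝕄.M) :
    ContinuousOn (fun x => D.d (f x) (g x)) A :=
  D.cont_d.comp (hf.prodMk hg) fun x hx => ⟨m x hx, m' x hx⟩

theorem d_mem (hp : p ∈ 𝕄.M) (hq : q ∈ 𝕄.M) : D.d p q ∈ Icc 0 (π / 2) := by
  obtain ⟨c, hc, t, ht, e⟩ := D.exists_ev (y := (p, q)) ⟨hp, hq⟩
  obtain ⟨rfl, rfl⟩ := Prod.mk.inj e
  rwa [D.dS c hc t ht]

theorem d_nonneg (hp : p ∈ 𝕄.M) (hq : q ∈ 𝕄.M) : 0 ≤ D.d p q := (D.d_mem hp hq).1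

theorem d_le (hp : p ∈ 𝕄.M) (hq : q ∈ 𝕄.M) : D.d p q ≤ π / 2 := (D.d_mem hp hq).2

theorem d_self (hp : p ∈ 𝕄.M) : D.d p p = 0 :=
  (D.d_eq (y := (p, p)) ⟨hp, hp⟩).trans (D.lt_dg rfl)

theorem d_eq_zero (hp : p ∈ 𝕄.M) (hq : q ∈ 𝕄.M) (h : D.d p q = 0) : p = q := by
  obtain ⟨c, hc, t, ht, e⟩ := D.exists_ev (y := (p, q)) ⟨hp, hq⟩
  obtain ⟨rfl, rfl⟩ := Prod.mk.inj e
  rw [D.dS c hc t ht] at h
  rw [h, cs_zero]

theorem mem_F (h : y ∈ 𝕄.MM) : y ∈ D.F ↔ D.d y.1 y.2 = π / 2 := by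
  refine ⟨fun ⟨c, hc, e1, e2⟩ => ?_, fun e => ?_⟩
  · rw [← e1, ← e2]
    exact D.dS c hc _ ⟨by positivity, le_rfl⟩
  · obtain ⟨c, hc, t, ht, rfl⟩ := D.exists_ev h
    rw [D.dS c hc t ht] at e
    exact e ▸ D.en_mem hc

theorem d_F (h : y ∈ D.F) : D.d y.1 y.2 = π / 2 := (D.mem_F (D.F_MM h)).1 h

theorem mem_Nb (h : y ∈ 𝕄.MM) : y ∈ D.Nb ↔ D.d y.1 y.2 < π / 2 :=
  ⟨fun k => (D.d_le h.1 h.2).lt_of_ne fun e => k.2 ((D.mem_F h).2 e),
    fun k => ⟨h, fun e => k.ne (D.d_F e)⟩⟩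

theorem d_Nb (h : y ∈ D.Nb) : D.d y.1 y.2 < π / 2 := (D.mem_Nb h.1).1 h

theorem nb (hp : p ∈ 𝕄.M) (hq : q ∈ 𝕄.M) (h : D.d p q < π / 2) : (p, q) ∈ D.Nb :=
  (D.mem_Nb (y := (p, q)) ⟨hp, hq⟩).2 h

theorem geo_d (hc : c ∈ D.S) (s : ℝ) (ht : t ∈ Icc 0 (π / 2)) :
    D.d (c (cs s)) (c (cs (s + t))) = t := by
  have := D.dS _ (D.inv (cs s) c hc) t ht
  rwa [sh_cs, sh_at_one] at this

theorem geo_lip (hc : c ∈ D.S) (s t : ℝ) : D.d (c (cs s)) (c (cs t)) ≤ |s - t| := by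
  wlog h : s ≤ t generalizing s t
  · rw [D.symm _ (D.mem c hc _) _ (D.mem c hc _), abs_sub_comm]
    exact this _ _ (not_le.1 h).le
  rw [abs_sub_comm, abs_of_nonneg (sub_nonneg.2 h)]
  rcases le_total (t - s) (π / 2) with k | k
  · have := D.geo_d hc s ⟨sub_nonneg.2 h, k⟩
    rw [add_sub_cancel] at this
    exact this.le
  · exact (D.d_le (D.mem c hc _) (D.mem c hc _)).trans k

open Classical in
/-- move from `y.1` towards `y.2` by the amount `τ`, and stop at the end points -/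
def mv (y : V × V) (τ : ℝ) : V :=
  if y.1 = y.2 then y.1 else D.lc y (cs (min (max τ 0) (D.lt y)))

theorem mv_eq (hc : c ∈ D.S) (ht : t ∈ Ico 0 (π / 2)) (τ : ℝ) :
    D.mv (c 1, c (cs t)) τ = c (cs (min (max τ 0) t)) := by
  rcases ht.1.eq_or_lt with rfl | h
  · rw [mv, if_pos (by rw [cs_zero]), min_eq_right (le_max_right _ _), cs_zero]
  · rw [mv, if_neg (D.ne c hc t ⟨h, ht.2.le⟩).symm, D.lc_eq hc ⟨h, ht.2⟩, D.lt_eq hc ⟨ht.1, ht.2.le⟩]

theorem exists_mv (h : y ∈ D.Nb) : ∃ c ∈ D.S, c 1 = y.1 ∧ c (cs (D.d y.1 y.2)) = y.2 ∧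
    ∀ τ, D.mv y τ = c (cs (min (max τ 0) (D.d y.1 y.2))) := by
  have k := D.d_Nb h
  obtain ⟨c, hc, t, ht, rfl⟩ := D.exists_ev h.1
  rw [D.dS c hc t ht] at k ⊢
  exact ⟨c, hc, rfl, rfl, D.mv_eq hc ⟨ht.1, k⟩⟩

theorem cont_mv : ContinuousOn (fun z : (V × V) × ℝ => D.mv z.1 z.2) (D.Nb ×ˢ univ) := by
  refine B.desc (K := D.S ×ˢ Icc 0 (π / 2)) (D.cpt.prod isCompact_Icc) continuous_ev2.continuousOn
    (fun z hz => ?_) (ContinuousOn.congr (f := fun z : (LM V × ℝ) × ℝ =>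
      z.1.1 (cs (min (max z.2 0) z.1.2))) (Continuous.continuousOn ?_) fun z hz => ?_)
  · obtain ⟨c, hc, t, ht, e⟩ := D.exists_ev hz.1.1
    exact ⟨(c, t), ⟨hc, ht⟩, e.symm⟩
  · have := continuous_cs
    fun_prop
  · exact D.mv_eq hz.1.1 ⟨hz.1.2.1, (D.dS _ hz.1.1 _ hz.1.2).symm.trans_lt (D.d_Nb hz.2.1)⟩ _

theorem contOn_mv {X : Type} [TopologicalSpace X] {A : Set X} {f g : X → V} {u : X → ℝ}
    (hf : ContinuousOn f A) (hg : ContinuousOn g A) (hu : ContinuousOn u A)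
    (m : ∀ x ∈ A, (f x, g x) ∈ D.Nb) : ContinuousOn (fun x => D.mv (f x, g x) (u x)) A :=
  D.cont_mv.comp ((hf.prodMk hg).prodMk hu) fun x hx => ⟨m x hx, trivial⟩

theorem mv_mem (h : y ∈ D.Nb) (τ : ℝ) : D.mv y τ ∈ 𝕄.M := by
  obtain ⟨c, hc, -, -, e⟩ := D.exists_mv h
  exact e τ ▸ D.mem c hc _

theorem mv_le (h : y ∈ D.Nb) (hτ : τ ≤ 0) : D.mv y τ = y.1 := by
  obtain ⟨c, hc, e1, -, e⟩ := D.exists_mv h
  rw [e, max_eq_right hτ, min_eq_left (D.d_nonneg h.1.1 h.1.2), cs_zero, e1]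

theorem mv_ge (h : y ∈ D.Nb) (hτ : D.d y.1 y.2 ≤ τ) : D.mv y τ = y.2 := by
  obtain ⟨c, hc, -, e2, e⟩ := D.exists_mv h
  rw [e, min_eq_right (hτ.trans (le_max_left _ _)), e2]

theorem mv_lip (h : y ∈ D.Nb) (s t : ℝ) : D.d (D.mv y s) (D.mv y t) ≤ |s - t| := by
  obtain ⟨c, hc, -, -, e⟩ := D.exists_mv h
  rw [e, e]
  refine (D.geo_lip hc _ _).trans ((abs_min_sub_min_le_max _ _ _ _).trans ?_)
  rw [sub_self, abs_zero, max_eq_left (abs_nonneg _)]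
  exact abs_max_sub_max_le_abs _ _ _

theorem mv_self (p : V) (τ : ℝ) : D.mv (p, p) τ = p := if_pos rfl

theorem mv_geo (hc : c ∈ D.S) (s : ℝ) (ht : t < π / 2) (hτ : τ ∈ Icc 0 t) :
    D.mv (c (cs s), c (cs (s + t))) τ = c (cs (s + τ)) := by
  have := D.mv_eq (D.inv (cs s) c hc) ⟨hτ.1.trans hτ.2, ht⟩ τ
  rwa [sh_cs, sh_cs, sh_at_one, max_eq_left hτ.1, min_eq_left hτ.2] at this

/-- `f` is a Lipschitz curve on `[a, b]` -/
structure LipOn (l : ℝ) (f : ℝ → V) (a b : ℝ) : Prop where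
  mem : ∀ t ∈ Icc a b, f t ∈ 𝕄.M
  lip : ∀ s t, a ≤ s → s ≤ t → t ≤ b → D.d (f s) (f t) ≤ l * (t - s)

variable {D} {l a b e : ℝ} {f g : ℝ → V} {x : LS V}

theorem LipOn.congr (h : D.LipOn l f a b) (k : ∀ t ∈ Icc a b, g t = f t) : D.LipOn l g a b :=
  ⟨fun t ht => k t ht ▸ h.mem t ht, fun s t h1 h2 h3 => by
    rw [k s ⟨h1, h2.trans h3⟩, k t ⟨h1.trans h2, h3⟩]
    exact h.lip s t h1 h2 h3⟩

theorem LipOn.trans (h : D.LipOn l f a b) (k : D.LipOn l f b e) : D.LipOn l f a e := by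
  refine ⟨fun t ht => (le_total t b).elim (fun u => h.mem t ⟨ht.1, u⟩) fun u => k.mem t ⟨u, ht.2⟩,
    fun s t h1 h2 h3 => ?_⟩
  rcases le_total t b with u | u
  · exact h.lip s t h1 h2 u
  rcases le_total b s with v | v
  · exact k.lip s t v h2 h3
  have := D.tri _ (h.mem s ⟨h1, v⟩) _ (h.mem b ⟨h1.trans v, le_rfl⟩) _ (k.mem t ⟨u, h3⟩)
  linarith [h.lip s b h1 v le_rfl, k.lip b t le_rfl u h3]

theorem LipOn.ite (h : D.LipOn l f a b) (k : D.LipOn l g b e) (m : f b = g b) :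
    D.LipOn l (fun t => if t ≤ b then f t else g t) a e :=
  (h.congr fun t ht => if_pos ht.2).trans (k.congr fun t ht => by
    rcases ht.1.eq_or_lt with rfl | u
    · rw [if_pos le_rfl, m]
    · exact if_neg u.not_ge)

theorem lipOn_mv (h : y ∈ D.Nb) (hl : 0 ≤ l) (m a b : ℝ) :
    D.LipOn l (fun t => D.mv y (l * (t - m))) a b :=
  ⟨fun _ _ => D.mv_mem h _, fun s t _ h2 _ => (D.mv_lip h _ _).trans (by
    rw [abs_sub_comm, ← mul_sub, sub_sub_sub_cancel_right,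
      abs_of_nonneg (mul_nonneg hl (sub_nonneg.2 h2))])⟩

theorem lam_lip (hx : x ∈ D.Lam) (h : s ≤ t) : D.d (x.1 (cs s)) (x.1 (cs t)) ≤ x.2 * (t - s) := by
  have := hx.2.2 s t
  rwa [abs_sub_comm, abs_of_nonneg (sub_nonneg.2 h)] at this

theorem lipOn_lam (hx : x ∈ D.Lam) (a b : ℝ) : D.LipOn x.2 (fun t => x.1 (cs t)) a b :=
  ⟨fun _ _ => hx.1 _, fun _ _ _ h _ => lam_lip hx h⟩

theorem cs_int (t : ℝ) (n : ℤ) : cs (t + n * π) = cs t := by
  have : Function.Periodic cs π := fun t => by rw [cs_add, cs_pi, mul_one]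
  exact this.int_mul n t

theorem mem_Lam (hl : x.2 ∈ Icc (0 : ℝ) 2) (h : D.LipOn x.2 (fun t => x.1 (cs t)) 0 π) :
    x ∈ D.Lam := by
  have m : ∀ θ, x.1 θ ∈ 𝕄.M := fun θ => by
    obtain ⟨t, ht, rfl⟩ := exists_cs θ
    exact h.mem t ⟨ht.1, ht.2.le⟩
  have h2 : D.LipOn x.2 (fun t => x.1 (cs t)) 0 (π + π) := h.trans ⟨fun _ _ => m _, fun s t h1 h2 h3 => by
    have := h.lip (s - π) (t - π) (by linarith) (by linarith) (by linarith)
    rwa [cs_sub_pi, cs_sub_pi, sub_sub_sub_cancel_right] at this⟩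
  refine ⟨m, hl, fun s t => ?_⟩
  wlog k : s ≤ t generalizing s t
  · rw [D.symm _ (m _) _ (m _), abs_sub_comm]
    exact this _ _ (not_le.1 k).le
  rw [abs_sub_comm, abs_of_nonneg (sub_nonneg.2 k)]
  obtain ⟨u, hu, e⟩ := exists_cs (cs s)
  obtain ⟨v, hv, e'⟩ := exists_cs (cs (t - s))
  have e2 : cs t = cs (u + v) := by rw [cs_add, ← e, ← e', ← cs_add, add_sub_cancel]
  have := h2.lip u (u + v) hu.1 (by linarith [hv.1]) (by linarith [hu.2, hv.2])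
  rw [add_sub_cancel_left] at this
  rw [e, e2]
  refine this.trans (mul_le_mul_of_nonneg_left ?_ hl.1)
  obtain ⟨n, hn⟩ := cs_eq e'
  have : (-1 : ℝ) < n := by
    by_contra w
    nlinarith [not_lt.1 w, hv.2, pi_pos]
  have : (0 : ℝ) ≤ n := by exact_mod_cast (show (0 : ℤ) ≤ n by
    have : (-1 : ℤ) < n := by exact_mod_cast this
    omega)
  nlinarith [pi_pos]

theorem mk_Lam (hc : ContinuousOn f (Icc 0 π)) (e : f 0 = f π) (hl : l ∈ Icc (0 : ℝ) 2)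
    (h : D.LipOn l f 0 π) : (B.mkL f, l) ∈ D.Lam :=
  mem_Lam hl (h.congr fun _ ht => B.mkL_apply hc e ht)

/-- points of a loop are at distance at most half of the length -/
theorem lam_d (hx : x ∈ D.Lam) (θ η : Circle) : D.d (x.1 θ) (x.1 η) ≤ x.2 * (π / 2) := by
  have key : ∀ s ∈ Ico 0 π, ∀ t ∈ Ico 0 π, s ≤ t → D.d (x.1 (cs s)) (x.1 (cs t)) ≤ x.2 * (π / 2) := by
    intro s hs t ht h
    rcases le_total (t - s) (π / 2) with k | k
    · exact (lam_lip hx h).trans (mul_le_mul_of_nonneg_left k hx.2.1.1)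
    · have := lam_lip hx (show t - π ≤ s by linarith [hs.1, ht.2])
      rw [cs_sub_pi, D.symm _ (hx.1 _) _ (hx.1 _)] at this
      exact this.trans (mul_le_mul_of_nonneg_left (by linarith) hx.2.1.1)
  obtain ⟨s, hs, rfl⟩ := exists_cs θ
  obtain ⟨t, ht, rfl⟩ := exists_cs η
  rcases le_total s t with h | h
  · exact key s hs t ht h
  · exact D.symm _ (hx.1 _) _ (hx.1 _) ▸ key t ht s hs h

theorem lam_nb (hx : x ∈ D.Lam) (h : x.2 < 1) (θ η : Circle) : (x.1 θ, x.1 η) ∈ D.Nb :=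
  D.nb (hx.1 _) (hx.1 _) ((lam_d hx θ η).trans_lt (by nlinarith [pi_pos]))

theorem lam_F (hx : x ∈ D.Lam) {θ η : Circle} (h : (x.1 θ, x.1 η) ∈ D.F) : 1 ≤ x.2 :=
  not_lt.1 fun k => (lam_nb hx k θ η).2 h

variable (D)

theorem inv_Lam : Inv D.Lam := fun θ x hx => ⟨fun _ => hx.1 _, hx.2.1, fun s t => by
  obtain ⟨u, -, rfl⟩ := exists_cs θ
  have := hx.2.2 (u + s) (u + t)
  rwa [add_sub_add_left_eq_sub, ← sh_cs, ← sh_cs] at this⟩

theorem isClosed_Lam : IsClosed D.Lam := by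
  have h1 : IsClosed {x : LS V | ∀ θ, x.1 θ ∈ 𝕄.M} := by
    rw [ofPred_forall]
    exact isClosed_iInter fun θ => 𝕄.cpt.isClosed.preimage (by fun_prop)
  have : D.Lam = (Prod.snd ⁻¹' Icc 0 2) ∩ ⋂ s, ⋂ t, {x : LS V | ∀ θ, x.1 θ ∈ 𝕄.M} ∩
      (fun x => x.2 * |s - t| - D.d (x.1 (cs s)) (x.1 (cs t))) ⁻¹' Ici 0 := by
    ext x
    simp only [Lam, mem_ofPred_eq, mem_inter_iff, mem_preimage, mem_iInter, mem_Ici, sub_nonneg]
    exact ⟨fun h => ⟨h.2.1, fun s t => ⟨h.1, h.2.2 s t⟩⟩, fun h => ⟨(h.2 0 0).1, h.1, fun s t => (h.2 s t).2⟩⟩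
  rw [this]
  refine (isClosed_Icc.preimage continuous_snd).inter (isClosed_iInter fun s => isClosed_iInter fun t =>
    ContinuousOn.preimage_isClosed_of_isClosed (ContinuousOn.sub (by fun_prop) ?_) h1 isClosed_Ici)
  exact D.contOn_d (by fun_prop) (by fun_prop) (fun _ h => h _) fun _ h => h _

theorem lc_Lam : IsLocallyClosed D.Lam := D.isClosed_Lam.isLocallyClosed

theorem S_Lam (hc : c ∈ D.S) : (c, (1 : ℝ)) ∈ D.Lam :=
  ⟨D.mem c hc, by norm_num, fun s t => by simpa using D.geo_lip hc s t⟩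

theorem db_cs (c : LM V) (t : ℝ) : db c (cs t) = c (cs (2 * t)) := by rw [db_apply, two_mul, cs_add]

theorem db_Lam (hx : x ∈ D.Lam) (h : x.2 ≤ 1) : dbS x ∈ D.Lam :=
  ⟨fun _ => hx.1 _, ⟨by simpa [dbS] using hx.2.1.1, by simpa [dbS] using h⟩, fun s t => by
    have := hx.2.2 (2 * s) (2 * t)
    rw [← mul_sub, abs_mul, abs_two, ← db_cs, ← db_cs] at this
    change D.d (db x.1 _) (db x.1 _) ≤ 2 * x.2 * _
    linarith⟩

theorem const_Lam (hp : p ∈ 𝕄.M) (hl : l ∈ Icc (0 : ℝ) 2) : (ContinuousMap.const Circle p, l) ∈ D.Lam :=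
  ⟨fun _ => hp, hl, fun s t => by
    change D.d p p ≤ _
    rw [D.d_self hp]
    exact mul_nonneg hl.1 (abs_nonneg _)⟩

/-- loops of speed less than `r` -/
def Ls (r : ℝ) : Set (LS V) := D.Lam \ Zr r

theorem mem_Ls {r : ℝ} : x ∈ D.Ls r ↔ x ∈ D.Lam ∧ x.2 < r := and_congr_right' (not_le (a := r))

theorem inv_Ls (r : ℝ) : Inv (D.Ls r) := D.inv_Lam.inter (inv_snd fun t => ¬r ≤ t)

theorem lc_Ls (r : ℝ) : IsLocallyClosed (D.Ls r) :=
  D.lc_Lam.inter isClosed_Zr.isOpen_compl.isLocallyClosed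

end TD1

end Pool.Agent.Work.MP_8c604c_gt.OT
end
end

-- merged part: Pool.Agent.Work.MP_8c604c_gt.OL.Defs
section
/-!
Quadrilaterals with short sides (block L2, owner helper80): definitions.
-/

noncomputable section

set_option linter.unusedSectionVars false

namespace Pool.Agent.Work.MP_8c604c_gt.OT

open Set Real Topology Pool.Agent.Work.MP_849ab0_ag.G T

variable {V : Type} [NormedAddCommGroup V] [InnerProductSpace ℝ V] [FiniteDimensional ℝ V]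
  {𝕄 : Mf V}

/-- four points -/
abbrev V4 (V : Type) : Type := V × V × V × V

/-- the first and the last point -/
def ends (y : V4 V) : V × V := (y.1, y.2.2.2)

/-- the vertices of the inscribed quadrilateral -/
def vert (x : LS V) : V4 V := (x.1 1, x.1 (cs (π / 4)), x.1 (cs (π / 2)), x.1 (cs (3 * π / 4)))

/-- four equally spaced points from a point to its cut point -/
def thirds (c : LM V) : V4 V := (c 1, c (cs (π / 6)), c (cs (π / 3)), c (cs (π / 2)))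

/-- the base point -/
def bas (x : LS V) : V := x.1 1

theorem continuous_ends : Continuous (ends : V4 V → _) := by unfold ends; fun_prop

theorem continuous_vert : Continuous (vert : LS V → _) := by unfold vert; fun_prop

theorem continuous_thirds : Continuous (thirds : LM V → _) := by unfold thirds; fun_prop

theorem continuous_bas : Continuous (bas : LS V → _) := by unfold bas; fun_prop

namespace TD1

variable (D : TD1 𝕄) (B : Set V)

/-- broken geodesics with three short sides that start in `B` -/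
def A3 : Set (V4 V) :=
  {y | y.1 ∈ B ∧ (y.1, y.2.1) ∈ D.Nb ∧ (y.2.1, y.2.2.1) ∈ D.Nb ∧ (y.2.2.1, y.2.2.2) ∈ D.Nb}

/-- the end points are cut points -/
def FA : Set (V4 V) := {y | ends y ∈ D.F}

/-- quadrilaterals with short sides -/
def Q4 : Set (V4 V) := D.A3 B \ D.FA

/-- broken geodesics from a point to a cut point -/
def AF : Set (V4 V) := D.A3 B ∩ D.FA

/-- loops of speed less than `r` with base point in `B` -/
def LsB (r : ℝ) : Set (LS V) := D.Ls r ∩ {x | x.1 1 ∈ B}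

/-- closed geodesics with base point in `B` -/
def Sov : Set (LM V) := D.S ∩ {c | c 1 ∈ B}

/-- the first side -/
def s1 (y : V4 V) : ℝ := D.d y.1 y.2.1

/-- the second side -/
def s2 (y : V4 V) : ℝ := D.d y.2.1 y.2.2.1

/-- the third side -/
def s3 (y : V4 V) : ℝ := D.d y.2.2.1 y.2.2.2

/-- the length -/
def len3 (y : V4 V) : ℝ := D.s1 y + D.s2 y + D.s3 y

variable {B}

theorem lc_Nb3 : IsLocallyClosed (D.A3 univ) := by
  have h : ∀ {f : V4 V → V × V}, Continuous f → IsLocallyClosed (f ⁻¹' D.Nb) := fun h =>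
    D.lc_Nb.preimage h
  exact (isClosed_univ.isLocallyClosed.inter ((h (f := fun y => (y.1, y.2.1)) (by fun_prop)).inter
    ((h (f := fun y => (y.2.1, y.2.2.1)) (by fun_prop)).inter
      (h (f := fun y => (y.2.2.1, y.2.2.2)) (by fun_prop)))) :)

theorem lc_A3 (hB : IsClosed B) : IsLocallyClosed (D.A3 B) := by
  have : D.A3 B = Prod.fst ⁻¹' B ∩ D.A3 univ := Set.ext fun y => by simp [A3]
  rw [this]
  exact (hB.preimage continuous_fst).isLocallyClosed.inter D.lc_Nb3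

theorem isClosed_FA : IsClosed D.FA := D.isClosed_F.preimage continuous_ends

theorem lc_Q4 (hB : IsClosed B) : IsLocallyClosed (D.Q4 B) :=
  (D.lc_A3 hB).inter D.isClosed_FA.isOpen_compl.isLocallyClosed

theorem lc_AF (hB : IsClosed B) : IsLocallyClosed (D.AF B) :=
  (D.lc_A3 hB).inter D.isClosed_FA.isLocallyClosed

theorem lc_LsB (hB : IsClosed B) (r : ℝ) : IsLocallyClosed (D.LsB B r) :=
  (D.lc_Ls r).inter (hB.preimage continuous_bas).isLocallyClosed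

theorem isCompact_SB (hB : IsClosed B) : IsCompact (D.Sov B) :=
  D.cpt.inter_right (hB.preimage (by fun_prop : Continuous fun c : LM V => c 1))

theorem LsB_M (r : ℝ) : D.LsB 𝕄.M r = D.Ls r := inter_eq_left.2 fun _ h => h.1.1 _

theorem SB_M : D.Sov 𝕄.M = D.S := inter_eq_left.2 fun c h => D.mem c h _

theorem cont_s1 : ContinuousOn D.s1 (D.A3 B) :=
  D.contOn_d (by fun_prop) (by fun_prop) (fun _ h => h.2.1.1.1) fun _ h => h.2.1.1.2

theorem cont_s2 : ContinuousOn D.s2 (D.A3 B) :=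
  D.contOn_d (by fun_prop) (by fun_prop) (fun _ h => h.2.2.1.1.1) fun _ h => h.2.2.1.1.2

theorem cont_s3 : ContinuousOn D.s3 (D.A3 B) :=
  D.contOn_d (by fun_prop) (by fun_prop) (fun _ h => h.2.2.2.1.1) fun _ h => h.2.2.2.1.2

theorem cont_len : ContinuousOn D.len3 (D.A3 B) := (D.cont_s1.add D.cont_s2).add D.cont_s3

theorem s_mem {y : V4 V} (h : y ∈ D.A3 B) :
    D.s1 y ∈ Ico 0 (π / 2) ∧ D.s2 y ∈ Ico 0 (π / 2) ∧ D.s3 y ∈ Ico 0 (π / 2) :=
  ⟨⟨D.d_nonneg h.2.1.1.1 h.2.1.1.2, D.d_Nb h.2.1⟩, ⟨D.d_nonneg h.2.2.1.1.1 h.2.2.1.1.2, D.d_Nb h.2.2.1⟩,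
    D.d_nonneg h.2.2.2.1.1 h.2.2.2.1.2, D.d_Nb h.2.2.2⟩

theorem ok_bas (r : ℝ) : Ok bas (D.LsB B r) univ B univ :=
  .of_mem (.of_continuous continuous_bas _) (fun _ h => h.2) fun _ _ _ => trivial

theorem ok_fstA : Ok Prod.fst (D.A3 B) univ B univ :=
  .of_mem (.of_continuous continuous_fst _) (fun _ h => h.1) fun _ _ _ => trivial

end TD1

end Pool.Agent.Work.MP_8c604c_gt.OT
end
end

-- merged part: Pool.Agent.Work.MP_8c604c_gt.OL.Birk
section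
/-!
Curve shortening, abstract form.

PLAN.  `exists_nbhd`: `a = cls U univ φ` (`exists_cls`), `res_cls`, `cls_eq_zero` gives `ψ` with `φ - dl ψ ∈ lz S`; take `O = nul (φ - dl ψ)`
(`isOpen_nul`, `mem_lz`, `lz_nul`, `lz_anti`).
`birk_reach`: otherwise the orbit stays in the compact set `K ∩ {δ ≤ E}`, on which `E - E ∘ T` has a positive minimum `η`
(`IsCompact.exists_isMinOn`), so `E (T^[n] x) ≤ E x - n η`.
`birk_push`: `G 0 (x, t) = x`, `G (n + 1) (x, t) = h (G n (x, t), max 0 (min 1 (t - n)))`.  Each `G n` is continuous on `U ×ˢ univ` with values in `U`,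
`G m (x, t) = G n (x, t)` for `t ≤ n ≤ m`, `G n (x, t) = T^[n] x` for `n ≤ t`, and `E (G m z) ≤ E (G n z)` for `n ≤ m`.  So
`Hh (x, t) = G ⌈t⌉₊ (x, t)` is continuous (it equals `G N` on `t < N`) and `E (Hh (x, t)) ≤ E (T^[n] x)` for `n ≤ t`.  `contOn_glue` with the convex sets
`{σ | 0 ≤ σ ∧ ∀ t, σ ≤ t → E (Hh (x, t)) < δ}` gives a continuous `σ`; the homotopy `(x, s) ↦ Hh (x, s * σ x)` (`pull_htpy'`, `ext_htpy`) ends in
`U ∩ {E < δ}`; `pull_res`, `pull_id`.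
-/

noncomputable section

set_option linter.unusedSectionVars false

namespace Pool.Agent.Work.MP_8c604c_gt.OT

open Set Real Topology Pool.Agent.Work.MP_849ab0_ag.G T

variable {X : Type} [TopologicalSpace X]

/-- tautness -/
theorem exists_nbhd {U S : Set X} (hS : S ⊆ U) {a : H U univ} (e : pull id S univ a = 0) :
    ∃ O, IsOpen O ∧ S ⊆ O ∧ pull id (U ∩ O) univ a = 0 := by
  obtain ⟨φ, k, rfl⟩ := exists_cls a
  have ok : ∀ {A : Set X}, A ⊆ U → Ok id A univ U univ := fun h => .id h fun _ _ _ => trivial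
  rw [res_cls (ok hS) k, cls_eq_zero ((ok hS).zc_id k)] at e
  obtain ⟨ψ, h1, -, h2⟩ := e
  refine ⟨nul (φ - dl ψ), isOpen_nul _, mem_lz.1 h2, ?_⟩
  rw [res_cls (ok inter_subset_left) k, cls_eq_zero ((ok inter_subset_left).zc_id k)]
  exact ⟨ψ, h1, fun _ hx => (hx.2 trivial).elim, lz_anti inter_subset_right (lz_nul _)⟩

theorem birk_reach {K : Set X} (hK : IsCompact K) {T : X → X} (hT : ContinuousOn T K)
    (m : MapsTo T K K) {E : X → ℝ} (hE : ContinuousOn E K) (le : ∀ x ∈ K, E (T x) ≤ E x) {δ : ℝ}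
    (lt : ∀ x ∈ K, δ ≤ E x → E (T x) < E x) {x : X} (hx : x ∈ K) : ∃ n : ℕ, E (T^[n] x) < δ := by
  by_contra! hn
  have hC : IsCompact (K ∩ E ⁻¹' Ici δ) := by
    obtain ⟨u, hu, k⟩ := continuousOn_iff_isClosed.1 hE _ (isClosed_Ici (a := δ))
    rw [inter_comm, k]
    exact hK.inter_left hu
  obtain ⟨y, hy, h1⟩ := hC.exists_isMinOn ⟨x, hx, hn 0⟩
    ((hE.sub (hE.comp hT m)).mono inter_subset_left)
  have h2 : ∀ n : ℕ, E (T^[n] x) ≤ E x - n * (E y - E (T y)) := fun n => by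
    induction n with
    | zero => simp
    | succ n ih =>
      have h3 : E y - E (T y) ≤ E (T^[n] x) - E (T (T^[n] x)) := h1 ⟨m.iterate n hx, hn n⟩
      rw [Function.iterate_succ_apply', Nat.cast_succ]
      linarith
  obtain ⟨n, h3⟩ := exists_lt_nsmul (sub_pos.2 (lt y hy.1 hy.2)) (E x - δ)
  rw [nsmul_eq_mul] at h3
  linarith [h2 n, hn n]

/-- the first `n` steps of the iterated homotopy -/
def Birk_G (h : X × ℝ → X) : ℕ → X × ℝ → X
  | 0, z => z.1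
  | n + 1, z => h (Birk_G h n z, max 0 (min 1 (z.2 - n)))

theorem Birk_mem (s : ℝ) : max 0 (min 1 s) ∈ Icc (0 : ℝ) 1 :=
  ⟨le_max_left _ _, max_le zero_le_one (min_le_left _ _)⟩

/-- the iterated homotopy -/
theorem Birk_it {U : Set X} {h : X × ℝ → X} (ch : ContinuousOn h (U ×ˢ Icc 0 1))
    (mh : ∀ x ∈ U, ∀ t ∈ Icc (0 : ℝ) 1, h (x, t) ∈ U) (h0 : ∀ x ∈ U, h (x, 0) = x) {E : X → ℝ}
    (le : ∀ x ∈ U, ∀ t ∈ Icc (0 : ℝ) 1, E (h (x, t)) ≤ E x) :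
    ∃ F : X × ℝ → X, ContinuousOn F (U ×ˢ univ) ∧ (∀ x ∈ U, ∀ t, F (x, t) ∈ U) ∧
      (∀ x, F (x, 0) = x) ∧
      ∀ x ∈ U, ∀ (n : ℕ) (t : ℝ), n ≤ t → E (F (x, t)) ≤ E ((fun y => h (y, 1))^[n] x) := by
  have a : ∀ n, ∀ z : X × ℝ, z.1 ∈ U → Birk_G h n z ∈ U := fun n z hz => by
    induction n with
    | zero => exact hz
    | succ n ih => exact mh _ ih _ (Birk_mem _)
  have b : ∀ n, ContinuousOn (Birk_G h n) (U ×ˢ univ) := fun n => by
    induction n with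
    | zero => exact continuousOn_fst
    | succ n ih =>
      exact ch.comp (ih.prodMk (by fun_prop : Continuous fun z : X × ℝ =>
        max 0 (min 1 (z.2 - n))).continuousOn) fun z hz => ⟨a n z hz.1, Birk_mem _⟩
  have c : ∀ z : X × ℝ, z.1 ∈ U → ∀ n : ℕ, z.2 ≤ n → ∀ m, n ≤ m →
      Birk_G h m z = Birk_G h n z := fun z hz n hn m hm => by
    induction m, hm using Nat.le_induction with
    | base => rfl
    | succ m hm ih =>
      have h1 : z.2 - m ≤ 0 := sub_nonpos.2 (hn.trans (Nat.cast_le.2 hm))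
      rw [Birk_G, max_eq_left ((min_le_right _ _).trans h1), h0 _ (a m z hz), ih]
  have d : ∀ (z : X × ℝ) (n : ℕ), n ≤ z.2 → Birk_G h n z = (fun y => h (y, 1))^[n] z.1 :=
    fun z n hn => by
    induction n with
    | zero => rfl
    | succ n ih =>
      rw [Nat.cast_succ] at hn
      rw [Birk_G, min_eq_left (by linarith), max_eq_right zero_le_one, ih (by linarith),
        Function.iterate_succ_apply']
  have e : ∀ z : X × ℝ, z.1 ∈ U → ∀ n m : ℕ, n ≤ m → E (Birk_G h m z) ≤ E (Birk_G h n z) :=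
    fun z hz n m hm => by
    induction m, hm using Nat.le_induction with
    | base => rfl
    | succ m hm ih => exact (le _ (a m z hz) _ (Birk_mem _)).trans ih
  refine ⟨fun z => Birk_G h ⌈z.2⌉₊ z, fun z hz => ?_, fun x hx t => a _ _ hx, fun x => ?_,
    fun x hx n t hn => ?_⟩
  · obtain ⟨N, hN⟩ := exists_nat_gt z.2
    have k : ∀ w : X × ℝ, w.1 ∈ U → w.2 < N → Birk_G h ⌈w.2⌉₊ w = Birk_G h N w := fun w hw k =>
      (c w hw _ (Nat.le_ceil _) N (Nat.ceil_le.2 k.le)).symm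
    refine (b N z hz).congr_of_eventuallyEq ?_ (k z hz.1 hN)
    filter_upwards [self_mem_nhdsWithin, mem_nhdsWithin_of_mem_nhds
      ((isOpen_lt continuous_snd continuous_const).mem_nhds hN)] with w h1 h2 using k w h1.1 h2
  · simp only [Nat.ceil_zero, Birk_G]
  · exact (e (x, t) hx n _ (Nat.cast_le.1 (hn.trans (Nat.le_ceil t)))).trans_eq
      (congrArg E (d (x, t) n hn))

theorem birk_push [RegularSpace X] [SecondCountableTopology X] {U : Set X} (hU : IsLocallyClosed U)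
    {h : X × ℝ → X} (ch : ContinuousOn h (U ×ˢ Icc 0 1))
    (mh : ∀ x ∈ U, ∀ t ∈ Icc (0 : ℝ) 1, h (x, t) ∈ U) (h0 : ∀ x ∈ U, h (x, 0) = x) {E : X → ℝ}
    (hE : ContinuousOn E U) (le : ∀ x ∈ U, ∀ t ∈ Icc (0 : ℝ) 1, E (h (x, t)) ≤ E x) {δ : ℝ}
    (rch : ∀ x ∈ U, ∃ n : ℕ, E ((fun y => h (y, 1))^[n] x) < δ) {a : H U univ}
    (e : pull id (U ∩ {x | E x < δ}) univ a = 0) : a = 0 := by
  obtain ⟨F, f1, f2, f3, f4⟩ := Birk_it ch mh h0 le
  have m1 : (1 : ℝ) ∈ Icc (0 : ℝ) 1 := ⟨zero_le_one, le_rfl⟩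
  have mT : MapsTo (fun y => h (y, 1)) U U := fun y hy => mh y hy 1 m1
  have cT : ContinuousOn (fun y => h (y, 1)) U :=
    ch.comp (Continuous.prodMk_left 1).continuousOn fun y hy => ⟨hy, m1⟩
  obtain ⟨σ, s1, s2⟩ := contOn_glue (U := U) (t := fun x => {σ : ℝ | ∀ t, σ ≤ t → E (F (x, t)) < δ})
    (fun x _ => convex_iff_ordConnected.2 ⟨fun a k _ _ b hb t ht => k t (hb.1.trans ht)⟩)
    fun x hx => by
      obtain ⟨n, hn⟩ := rch x hx
      exact ⟨_, (hE.comp (cT.iterate mT n) (mT.iterate n) x hx).eventually_lt_const hn,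
        fun _ => n, continuousOn_const, fun y h1 h2 t ht => (f4 y h2 n t ht).trans_lt h1⟩
  have k : (pull id U univ : H U univ →ₗ[ℂ] H U univ) = pull (fun x => F (x, σ x)) U univ :=
    pull_htpy' (F := fun z => F (z.1, z.2 * σ z.1)) (ext_htpy hU (f1.comp
      (continuousOn_fst.prodMk (continuousOn_snd.mul (s1.comp continuousOn_fst fun z hz => hz.1)))
      fun z hz => ⟨hz.1, trivial⟩)) (fun x hx t _ => f2 x hx _) (fun _ _ _ _ _ => trivial)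
      (fun x _ => by simp only [zero_mul, f3, id]) fun x _ => by simp only [one_mul]
  have ok : Ok (fun x => F (x, σ x)) U univ (U ∩ {x | E x < δ}) univ :=
    .of_mem (.of_continuousOn hU (f1.comp (continuousOn_id.prodMk s1) fun x hx => ⟨hx, trivial⟩))
      (fun x hx => ⟨f2 x hx _, s2 x hx _ le_rfl⟩) fun _ _ _ => trivial
  rw [← pull_id a, k, ← pull_res ok inter_subset_left (fun _ _ _ => trivial) a, e, map_zero]

end Pool.Agent.Work.MP_8c604c_gt.OT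
end
end

-- merged part: Pool.Agent.Work.MP_8c604c_gt.OD.Defs
section
/-!
Three classes on the space of Lipschitz loops with support in the long loops (owner helper94).
-/

noncomputable section

set_option linter.unusedSectionVars false

namespace Pool.Agent.Work.MP_8c604c_gt.OT

open Set Real Filter Topology Pool.Agent.Work.MP_849ab0_ag.G T

section XQ

variable {X Y W : Type} [TopologicalSpace X] [TopologicalSpace Y] [TopologicalSpace W]
  {U Z : Set X} {U' Z' : Set Y} {E A : Set (X × Y)} {O B B₁ B₂ : Set W} {p q : ℤ}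

/-- the exterior product with supports -/
def xq (E A : Set (X × Y)) (a : H U Z) (b : H U' Z') : H E A :=
  cup E A (pull Prod.fst E (Prod.fst ⁻¹' Z) a) (pull Prod.snd E (Prod.snd ⁻¹' Z') b)

theorem isDeg_xq {a : H U Z} {b : H U' Z'} (ha : IsDeg p a) (hb : IsDeg q b) : IsDeg (p + q) (xq E A a b) :=
  (ha.pull _ _ _).cup (hb.pull _ _ _) _ _

theorem isZ_xq {a : H U Z} {b : H U' Z'} (ha : IsZ a) (hb : IsZ b) : IsZ (xq E A a b) :=
  (ha.pul _ _ _).cp (hb.pul _ _ _) _ _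

theorem xq_smul (s : ℂ) (a : H U Z) (b : H U' Z') : xq E A (s • a) b = s • xq E A a b := by
  simp only [xq, map_smul, LinearMap.smul_apply]

theorem xq_smul' (s : ℂ) (a : H U Z) (b : H U' Z') : xq E A a (s • b) = s • xq E A a b := by
  simp only [xq, map_smul]

/-- the pull-back of an exterior product -/
theorem pull_xq {F : W → X × Y} (hE : E ⊆ U ×ˢ U') (hA : ∀ z ∈ E, z.1 ∈ Z → z.2 ∈ Z' → z ∈ A)
    (o : Ok F O B E A) (h1 : ∀ w ∈ O, (F w).1 ∈ Z → w ∈ B₁) (h2 : ∀ w ∈ O, (F w).2 ∈ Z' → w ∈ B₂)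
    (h : ∀ w ∈ O, w ∈ B₁ → w ∈ B₂ → w ∈ B) (a : H U Z) (b : H U' Z') :
    pull F O B (xq E A a b) =
      cup O B (pull (fun w => (F w).1) O B₁ a) (pull (fun w => (F w).2) O B₂ b) := by
  have o1 : Ok F O B₁ E (Prod.fst ⁻¹' Z) := .of_mem o.ext o.maps h1
  have o2 : Ok F O B₂ E (Prod.snd ⁻¹' Z') := .of_mem o.ext o.maps h2
  rw [xq, pull_cup' o o1 o2 h (.of_subset subset_rfl subset_rfl hA),
    pull_pull' (F := fun w => (F w).1) o1 (.of_mem (.of_continuous continuous_fst _) (fun _ k => (hE k).1)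
      fun _ _ k => k) fun _ _ => rfl,
    pull_pull' (F := fun w => (F w).2) o2 (.of_mem (.of_continuous continuous_snd _) (fun _ k => (hE k).2)
      fun _ _ k => k) fun _ _ => rfl]

end XQ

variable {V : Type} [NormedAddCommGroup V] [InnerProductSpace ℝ V] [FiniteDimensional ℝ V]
  {𝕄 : Mf V}

/-- the base point and one more point -/
def e1 (z : LS V × Circle) : V × V := (z.1.1 1, z.1.1 z.2)

/-- the points `0`, `2 1`, `2` -/
def e2 (z : LS V × T2) : V × (V × V) × V := (z.1.1 1, (z.1.1 z.2.2, z.1.1 z.2.1), z.1.1 z.2.2)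

/-- the pairs `0 1`, `0 2`, `2 3` -/
def e3 (z : LS V × T3) : (V × V) × (V × V) × (V × V) :=
  ((z.1.1 1, z.1.1 z.2.1), (z.1.1 1, z.1.1 z.2.2.1), (z.1.1 z.2.2.1, z.1.1 z.2.2.2))

/-- the pairs `1 2`, `1 3`, `3 0` -/
def e4 (z : LS V × T3) : (V × V) × (V × V) × (V × V) :=
  ((z.1.1 z.2.1, z.1.1 z.2.2.1), (z.1.1 z.2.1, z.1.1 z.2.2.2), (z.1.1 z.2.2.2, z.1.1 1))

/-- two ordered times -/
def Rg2 : Set T2 := {t | ang t.1 < ang t.2}

/-- three ordered times -/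
def Rg3 : Set T3 := {t | ang t.1 < ang t.2.1} ∩ {t | ang t.2.1 < ang t.2.2}

theorem continuous_e1 : Continuous (e1 : LS V × Circle → _) := by unfold e1; fun_prop

theorem continuous_e2 : Continuous (e2 : LS V × T2 → _) := by unfold e2; fun_prop

theorem continuous_e3 : Continuous (e3 : LS V × T3 → _) := by unfold e3; fun_prop

theorem continuous_e4 : Continuous (e4 : LS V × T3 → _) := by unfold e4; fun_prop

theorem nf_Rg3 {a b c : Circle} (ha : a ≠ 1) (hc : c ≠ 1) (h1 : a ≠ b) (h2 : b ≠ c) :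
    (a, b, c) ∉ frontier Rg3 := by
  by_cases hb : b = 1
  · have h1 := ang_pos ha
    have h2 := (ang_mem c).2
    have cl : IsClosed (cs '' Icc (ang a / 2) ((ang c + π) / 2)) :=
      (isCompact_Icc.image continuous_cs).isClosed
    have n1 : b ∉ cs '' Icc (ang a / 2) ((ang c + π) / 2) := by
      rintro ⟨t, ht, e⟩
      have := ang_cs (t := t) ⟨by linarith [ht.1], by linarith [ht.2]⟩
      rw [e, hb, ang_one] at this
      linarith [ht.1]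
    refine nf_of_ev (P := False) ?_
    filter_upwards [(continuous_snd.fst.tendsto ((a, b, c) : T3)).eventually (cl.isOpen_compl.mem_nhds n1),
      ((continuousAt_ang ha).comp_of_eq (continuous_fst.continuousAt (x := ((a, b, c) : T3))) rfl).eventually
        (lt_mem_nhds (show ang a / 2 < ang a by linarith)),
      ((continuousAt_ang hc).comp_of_eq (continuous_snd.snd.continuousAt (x := ((a, b, c) : T3))) rfl).eventually
        (gt_mem_nhds (show ang c < (ang c + π) / 2 by linarith))] with t t1 t2 t3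
    exact iff_false_intro fun r => t1 ⟨_, ⟨(t2.trans r.1).le, (lt_trans r.2 t3).le⟩, cs_ang _⟩
  · exact nf_inter (nf_ang continuous_fst continuous_snd.fst ha hb h1)
      (nf_ang continuous_snd.fst continuous_snd.snd hb hc h2)

namespace TD1

variable (D : TD1 𝕄) (Q : MT 𝕄) {p q : V}

/-- the support of `om2` -/
def Z2 (p q : V) : Set (V × (V × V) × V) := {p} ×ˢ D.F ×ˢ {q}

/-- the support of `om3` -/
def Z3 : Set ((V × V) × (V × V) × (V × V)) := D.F ×ˢ Dg V ×ˢ D.F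

/-- the product `pt p`, `thF`, `pt q` -/
def om2 (p q : V) : H (𝕄.M ×ˢ 𝕄.MM ×ˢ 𝕄.M) (D.Z2 p q) :=
  xq _ _ (Q.pt p) (xq (𝕄.MM ×ˢ 𝕄.M) (D.F ×ˢ {q}) (D.thF Q) (Q.pt q))

/-- the product `thF`, `tauD`, `thF` -/
def om3 : H (𝕄.MM ×ˢ 𝕄.MM ×ˢ 𝕄.MM) D.Z3 :=
  xq _ _ (D.thF Q) (xq (𝕄.MM ×ˢ 𝕄.MM) (Dg V ×ˢ D.F) Q.tauD (D.thF Q))

/-- the class of degree 7 -/
def dl1 : H D.Lam (Zr 1) := sl 1 dt D.Lam (Zr 1) (pull e1 (D.Lam ×ˢ univ) (e1 ⁻¹' D.F) (D.thF Q))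

/-- the class of degree 38 -/
def dl2 (p q : V) : H D.Lam (Zr 1) :=
  JJ 2 w2 D.Lam (Zr 1) Rg2 (pull e2 (D.Lam ×ˢ univ) (e2 ⁻¹' D.Z2 p q) (D.om2 Q p q))

/-- the class of degree 29 -/
def dl3 : H D.Lam (Zr 2) :=
  JJ 3 w3 D.Lam (Zr 2) Rg3 (pull e3 (D.Lam ×ˢ univ) (e3 ⁻¹' D.Z3) (D.om3 Q))

/-- the rotated class of degree 29 -/
def dl4 : H D.Lam (Zr 2) :=
  JJ 3 w3 D.Lam (Zr 2) Rg3 (pull e4 (D.Lam ×ˢ univ) (e4 ⁻¹' D.Z3) (D.om3 Q))

theorem isDeg_om2 (hp : p ∈ 𝕄.M) (hq : q ∈ 𝕄.M) : IsDeg 40 (D.om2 Q p q) :=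
  isDeg_xq (p := 16) (q := 24) (D.gen_pt Q hp).deg
    (isDeg_xq (p := 8) (q := 16) (D.isDeg_thF Q) (D.gen_pt Q hq).deg)

theorem isDeg_om3 : IsDeg 32 (D.om3 Q) :=
  isDeg_xq (p := 8) (q := 24) (D.isDeg_thF Q) (isDeg_xq (p := 16) (q := 8) (D.isDeg_tauD Q) (D.isDeg_thF Q))

theorem isDeg_dl1 : IsDeg 7 (D.dl1 Q) := top_dt.sl_deg (p := 7) ((D.isDeg_thF Q).pull _ _ _)

theorem isDeg_dl2 (hp : p ∈ 𝕄.M) (hq : q ∈ 𝕄.M) : IsDeg 38 (D.dl2 Q p q) :=
  top_w2.isDeg_JJ (p := 38) ((D.isDeg_om2 Q hp hq).pull _ _ _)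

theorem isDeg_dl3 : IsDeg 29 (D.dl3 Q) := top_w3.isDeg_JJ (p := 29) ((D.isDeg_om3 Q).pull _ _ _)

theorem isDeg_dl4 : IsDeg 29 (D.dl4 Q) := top_w3.isDeg_JJ (p := 29) ((D.isDeg_om3 Q).pull _ _ _)

theorem ok_e1 : Ok e1 (D.Lam ×ˢ univ) (e1 ⁻¹' D.F) 𝕄.MM D.F :=
  .of_mem (.of_continuous continuous_e1 _) (fun _ h => ⟨h.1.1 _, h.1.1 _⟩) fun _ _ k => k

theorem ok_e2 : Ok e2 (D.Lam ×ˢ univ) (e2 ⁻¹' D.Z2 p q) (𝕄.M ×ˢ 𝕄.MM ×ˢ 𝕄.M) (D.Z2 p q) :=
  .of_mem (.of_continuous continuous_e2 _) (fun _ h => ⟨h.1.1 _, ⟨h.1.1 _, h.1.1 _⟩, h.1.1 _⟩) fun _ _ k => k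

theorem ok_e3 : Ok e3 (D.Lam ×ˢ univ) (e3 ⁻¹' D.Z3) (𝕄.MM ×ˢ 𝕄.MM ×ˢ 𝕄.MM) D.Z3 :=
  .of_mem (.of_continuous continuous_e3 _)
    (fun _ h => ⟨⟨h.1.1 _, h.1.1 _⟩, ⟨h.1.1 _, h.1.1 _⟩, h.1.1 _, h.1.1 _⟩) fun _ _ k => k

theorem ok_e4 : Ok e4 (D.Lam ×ˢ univ) (e4 ⁻¹' D.Z3) (𝕄.MM ×ˢ 𝕄.MM ×ˢ 𝕄.MM) D.Z3 :=
  .of_mem (.of_continuous continuous_e4 _)
    (fun _ h => ⟨⟨h.1.1 _, h.1.1 _⟩, ⟨h.1.1 _, h.1.1 _⟩, h.1.1 _, h.1.1 _⟩) fun _ _ k => k

theorem sub_e1 : ∀ z ∈ D.Lam ×ˢ (univ : Set Circle), z ∈ e1 ⁻¹' D.F → z.1 ∈ Zr 1 :=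
  fun _ h k => lam_F h.1 k

theorem F_ne {a b : V} (h : (a, b) ∈ D.F) : a ≠ b := (D.F_sub h).2

theorem jok2 (hpq : (p, q) ∈ D.Nb \ Dg V) : JOK D.Lam univ (e2 ⁻¹' D.Z2 p q) Rg2 (Zr 1) where
  nf z _ k := by
    have k1 : z.1.1 1 = p := k.1
    have k2 : z.1.1 z.2.2 = q := k.2.2
    have k3 : (z.1.1 z.2.2, z.1.1 z.2.1) ∈ D.F := k.2.1
    refine nf_ang continuous_fst continuous_snd (fun e => hpq.1.2 ?_) (fun e => hpq.2 ?_)
      fun e => D.F_ne k3 (by rw [e])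
    · rw [e, k1, k2] at k3
      exact D.swap_F k3
    · rw [e, k1] at k2
      exact k2
  sub _ h k _ := lam_F h.1 k.2.1

theorem lam_F' {x : LS V} (hx : x ∈ D.Lam) {s t : ℝ} (h : s ≤ t) (k : (x.1 (cs s), x.1 (cs t)) ∈ D.F) :
    π / 2 ≤ x.2 * (t - s) := (D.d_F k).ge.trans (lam_lip hx h)

theorem four_le {x : LS V} (h : x ∈ D.Lam) {a b c : Circle} (r : (a, b, c) ∈ Rg3) (k1 : (x.1 1, x.1 a) ∈ D.F)
    (k2 : (x.1 a, x.1 b) ∈ D.F) (k3 : (x.1 b, x.1 c) ∈ D.F) (k4 : (x.1 c, x.1 1) ∈ D.F) :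
    x.2 = 2 ∧ (a, b, c) = (cs (π / 4), cs (π / 2), cs (3 * π / 4)) := by
  have r1 : ang a < ang b := r.1
  have r2 : ang b < ang c := r.2
  have h1 := D.lam_F' h (ang_mem a).1 (by rwa [cs_zero, cs_ang])
  have h2 := D.lam_F' h r1.le (by rwa [cs_ang, cs_ang])
  have h3 := D.lam_F' h r2.le (by rwa [cs_ang, cs_ang])
  have h4 := D.lam_F' h (ang_mem c).2.le (by rwa [cs_ang, cs_pi])
  have e : x.2 = 2 := le_antisymm h.2.1.2 (le_of_mul_le_mul_right (by linarith) pi_pos)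
  rw [e] at h1 h2 h3 h4
  refine ⟨e, Prod.ext ?_ (Prod.ext ?_ ?_)⟩
  · exact (cs_ang a).symm.trans (congrArg cs (by linarith))
  · exact (cs_ang b).symm.trans (congrArg cs (by linarith))
  · exact (cs_ang c).symm.trans (congrArg cs (by linarith))

theorem e3_F {z : LS V × T3} (k : z ∈ e3 ⁻¹' D.Z3) : (z.1.1 1, z.1.1 z.2.1) ∈ D.F ∧
    (z.1.1 z.2.1, z.1.1 z.2.2.1) ∈ D.F ∧ (z.1.1 z.2.2.1, z.1.1 z.2.2.2) ∈ D.F ∧ (z.1.1 z.2.2.2, z.1.1 1) ∈ D.F := by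
  have k2 : z.1.1 1 = z.1.1 z.2.2.1 := k.2.1
  exact ⟨k.1, k2 ▸ D.swap_F k.1, k.2.2, k2 ▸ D.swap_F k.2.2⟩

theorem e4_F {z : LS V × T3} (k : z ∈ e4 ⁻¹' D.Z3) : (z.1.1 1, z.1.1 z.2.1) ∈ D.F ∧
    (z.1.1 z.2.1, z.1.1 z.2.2.1) ∈ D.F ∧ (z.1.1 z.2.2.1, z.1.1 z.2.2.2) ∈ D.F ∧ (z.1.1 z.2.2.2, z.1.1 1) ∈ D.F := by
  have k2 : z.1.1 z.2.1 = z.1.1 z.2.2.2 := k.2.1
  exact ⟨k2 ▸ D.swap_F k.2.2, k.1, k2 ▸ D.swap_F k.1, k.2.2⟩

/-- the support of `dl3` -/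
theorem e3_le {z : LS V × T3} (h : z.1 ∈ D.Lam) (k : z ∈ e3 ⁻¹' D.Z3) (r : z.2 ∈ Rg3) :
    z.1.2 = 2 ∧ z.2 = (cs (π / 4), cs (π / 2), cs (3 * π / 4)) :=
  D.four_le h r (D.e3_F k).1 (D.e3_F k).2.1 (D.e3_F k).2.2.1 (D.e3_F k).2.2.2

/-- the support of `dl4` -/
theorem e4_le {z : LS V × T3} (h : z.1 ∈ D.Lam) (k : z ∈ e4 ⁻¹' D.Z3) (r : z.2 ∈ Rg3) :
    z.1.2 = 2 ∧ z.2 = (cs (π / 4), cs (π / 2), cs (3 * π / 4)) :=
  D.four_le h r (D.e4_F k).1 (D.e4_F k).2.1 (D.e4_F k).2.2.1 (D.e4_F k).2.2.2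

theorem nf_four {c : LM V} {t : T3} (k : (c 1, c t.1) ∈ D.F ∧ (c t.1, c t.2.1) ∈ D.F ∧ (c t.2.1, c t.2.2) ∈ D.F ∧
    (c t.2.2, c 1) ∈ D.F) : t ∉ frontier Rg3 :=
  nf_Rg3 (fun e => D.F_ne k.1 (congrArg c e.symm)) (fun e => D.F_ne k.2.2.2 (congrArg c e))
    (fun e => D.F_ne k.2.1 (congrArg c e)) fun e => D.F_ne k.2.2.1 (congrArg c e)

theorem jok3 : JOK D.Lam univ (e3 ⁻¹' D.Z3) Rg3 (Zr 2) :=
  ⟨fun _ _ k => D.nf_four (D.e3_F k), fun _ h k r => (D.e3_le h.1 k r).1.ge⟩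

theorem jok4 : JOK D.Lam univ (e4 ⁻¹' D.Z3) Rg3 (Zr 2) :=
  ⟨fun _ _ k => D.nf_four (D.e4_F k), fun _ h k r => (D.e4_le h.1 k r).1.ge⟩

end TD1

end Pool.Agent.Work.MP_8c604c_gt.OT
end
end

-- merged part: Pool.Agent.Work.MP_8c604c_gt.OD.JP
section
/-!
Point classes, and their integrals over tori (owner helper94).
-/

noncomputable section

set_option linter.unusedSectionVars false

namespace Pool.Agent.Work.MP_8c604c_gt.OT

open Set Real Filter Topology Pool.Agent.Work.MP_849ab0_ag.G T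

variable {X Y Y' N N' : Type} [TopologicalSpace X] [RegularSpace X] [SecondCountableTopology X]
  [TopologicalSpace Y] [T3Space Y] [SecondCountableTopology Y]
  [TopologicalSpace Y'] [T3Space Y'] [SecondCountableTopology Y']
  [NormedAddCommGroup N] [NormedSpace ℝ N] [FiniteDimensional ℝ N]
  [NormedAddCommGroup N'] [NormedSpace ℝ N'] [FiniteDimensional ℝ N']
  {U Z : Set X} {O : Set Y} {O' : Set Y'} {y : Y} {y' : Y'} {n n' k : ℤ}

theorem zb_chartU (e : OpenPartialHomeomorph Y' Y) (hx : y' ∈ e.source) (hy : e y' = y) (c : Cl U Z) :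
    ZB (Prod.map id e) (U ×ˢ e.source) (Z ×ˢ {y'}) (U ×ˢ univ) (Z ×ˢ {y}) := by
  subst hy
  refine (ZB.of_inv (U := U ×ˢ e.source) (Z := Z ×ˢ {y'}) (U' := U ×ˢ e.target) (Z' := Z ×ˢ {e y'})
    (s := Prod.map id e.symm)
    (.of_mem (.of_continuousAt fun z h => continuousAt_id.prodMap (e.continuousAt h.2))
      (fun _ h => mk_mem_prod h.1 (e.map_source h.2)) fun z h k => ⟨k.1, e.injOn h.2 hx k.2⟩)
    (.of_mem (.of_continuousAt fun z h => continuousAt_id.prodMap (e.continuousAt_symm h.2))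
      (fun _ h => mk_mem_prod h.1 (e.map_target h.2))
      fun z h k => ⟨k.1, (e.right_inv h.2).symm.trans (congrArg e k.2)⟩)
    (fun _ h => Prod.ext rfl (e.left_inv h.2)) fun _ h => Prod.ext rfl (e.right_inv h.2)).comp
    (.excision (prod_mono_right (subset_univ _)) (((c.preimage continuousOn_fst fun _ h => h.1).inter
      (.of_isClosed (isClosed_singleton.preimage continuous_snd) _)).congr fun _ _ => Iff.rfl)
      (fun z h k => ?_) fun _ _ => Iff.rfl) fun _ _ => rfl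
  exact mem_of_superset (inter_mem_nhdsWithin _ (continuous_snd.continuousAt
    (e.open_target.mem_nhds (k.2 ▸ e.map_source hx)))) fun _ a => ⟨a.1.1, a.2⟩

theorem zb_chart (e : OpenPartialHomeomorph Y' Y) (hx : y' ∈ e.source) (hy : e y' = y) :
    ZB e e.source {y'} univ {y} := by
  subst hy
  exact (ZB.of_inv (U' := e.target) (Z' := {e y'}) (s := e.symm)
    (.of_mem (.of_continuousAt fun z h => e.continuousAt h) (fun _ h => e.map_source h)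
      fun _ h k => e.injOn h hx k)
    (.of_mem (.of_continuousAt fun z h => e.continuousAt_symm h) (fun _ h => e.map_target h)
      fun _ h k => (e.right_inv h).symm.trans (congrArg e k))
    (fun _ h => e.left_inv h) fun _ h => e.right_inv h).comp
    (.excision_univ isClosed_singleton fun _ k => e.open_target.mem_nhds (k ▸ e.map_source hx)) fun _ _ => rfl

/-- `ϖ` is an integral Thom class of the point `y` -/
structure PT (n : ℤ) (ϖ : H O {y}) : Prop where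
  isZ : IsZ ϖ
  deg : IsDeg n ϖ
  ex : ∀ (X : Type) [TopologicalSpace X] [RegularSpace X] [SecondCountableTopology X] (U Z : Set X), Cl U Z →
    (Function.Bijective fun a : H U Z => xq (U ×ˢ O) (Z ×ˢ {y}) a ϖ) ∧
      ∀ c, IsZ c → ∃ a : H U Z, IsZ a ∧ xq (U ×ˢ O) (Z ×ˢ {y}) a ϖ = c

theorem pt_orR (r : ℕ) : PT r (orR r) :=
  ⟨isZ_orR r, isDeg_orR r, fun X _ _ _ U Z h => by
    unfold xq
    rw [← prod_univ, ← univ_prod]
    refine ⟨(fib_orR r).triv X U Z h, fun c hc => ?_⟩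
    obtain ⟨b, rfl⟩ := isZ_iff.1 hc
    obtain ⟨a, rfl⟩ := ((TZ.fib_orR (R := ℤ) r).triv X U Z h).2 b
    exact ⟨_, isZ_cc a, by simp only [cc_cup, cc_pull, cc_orR]⟩⟩

variable {ϖ : H O {y}}

theorem PT.neg (h : PT n ϖ) : PT n (-ϖ) :=
  ⟨h.isZ.neg, h.deg.neg, fun X _ _ _ U Z c => by
    have e : ∀ a : H U Z, xq (U ×ˢ O) (Z ×ˢ {y}) a (-ϖ) = xq _ _ (-a) ϖ := fun a => by simp [xq]
    simp only [e]
    refine ⟨(h.ex X U Z c).1.comp (Equiv.neg _).bijective, fun b hb => ?_⟩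
    obtain ⟨a, a1, a2⟩ := (h.ex X U Z c).2 b hb
    exact ⟨-a, a1.neg, by rwa [neg_neg]⟩⟩

theorem map_xq2 {X' : Type} [TopologicalSpace X'] {U' Z' : Set X'} {W : Set Y} {W' : Set Y'} {g : X' → X}
    {f : Y' → Y} (k : Ok g U' Z' U Z) (o : Ok f O' W' O W) (a : H U Z) (ϖ : H O W) :
    pull (Prod.map g f) (U' ×ˢ O') (Z' ×ˢ W') (xq (U ×ˢ O) (Z ×ˢ W) a ϖ) =
      xq (U' ×ˢ O') (Z' ×ˢ W') (pull g U' Z' a) (pull f O' W' ϖ) := by
  have o' : Ok (Prod.map g f) (U' ×ˢ O') (Z' ×ˢ W') (U ×ˢ O) (Z ×ˢ W) :=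
    .of_mem (k.ext.prodMap o.ext) (fun _ h => ⟨k.maps h.1, o.maps h.2⟩)
      fun _ h e => ⟨k.mem h.1 e.1, o.mem h.2 e.2⟩
  rw [pull_xq (B₁ := Prod.fst ⁻¹' Z') (B₂ := Prod.snd ⁻¹' W') subset_rfl (fun _ _ a b => mk_mem_prod a b)
    o' (fun _ h e => k.mem h.1 e) (fun _ h e => o.mem h.2 e) fun _ _ a b => mk_mem_prod a b, xq,
    pull_pull' (U := U' ×ˢ O') (Z := Prod.snd ⁻¹' W') (Z' := W') (F := fun w : X' × Y' => (Prod.map g f w).2)
      (.of_mem (.of_continuous continuous_snd _) (fun _ k => k.2) fun _ _ k => k) o fun _ _ => rfl,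
    pull_pull' (U := U' ×ˢ O') (Z := Prod.fst ⁻¹' Z') (Z' := Z') (F := fun w : X' × Y' => (Prod.map g f w).1)
      (.of_mem (.of_continuous continuous_fst _) (fun _ k => k.1) fun _ _ k => k) k fun _ _ => rfl]

theorem map_xq {f : Y' → Y} (o : Ok f O' {y'} O {y}) (a : H U Z) (ϖ : H O {y}) :
    pull (Prod.map id f) (U ×ˢ O') (Z ×ˢ {y'}) (xq (U ×ˢ O) (Z ×ˢ {y}) a ϖ) =
      xq (U ×ˢ O') (Z ×ˢ {y'}) a (pull f O' {y'} ϖ) := by
  rw [map_xq2 .refl o, pull_id]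

theorem PT_iff {f : Y' → Y} (o : ZB f O' {y'} O {y})
    (z : ∀ (X : Type) [TopologicalSpace X] [RegularSpace X] [SecondCountableTopology X] (U Z : Set X), Cl U Z →
      ZB (Prod.map id f) (U ×ˢ O') (Z ×ˢ {y'}) (U ×ˢ O) (Z ×ˢ {y})) : PT n (pull f O' {y'} ϖ) ↔ PT n ϖ := by
  refine ⟨fun h => ⟨o.isZ h.isZ, o.isDeg h.deg, fun X _ _ _ U Z c => ?_⟩,
    fun h => ⟨h.isZ.pul _ _ _, h.deg.pull _ _ _, fun X _ _ _ U Z c => ?_⟩⟩
  · have := h.ex X U Z c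
    simp only [← map_xq o.ok] at this
    exact ⟨((z X U Z c).bij.of_comp_iff' _).1 this.1, fun b hb =>
      (this.2 _ (hb.pul _ _ _)).imp fun a k => ⟨k.1, (z X U Z c).bij.1 k.2⟩⟩
  · simp only [← map_xq o.ok]
    refine ⟨(z X U Z c).bij.comp (h.ex X U Z c).1, fun b hb => ?_⟩
    obtain ⟨b', hb', rfl⟩ := (z X U Z c).lift hb
    exact ((h.ex X U Z c).2 b' hb').imp fun a k => ⟨k.1, by rw [k.2]⟩

theorem PT.gen (h : PT n ϖ) (c : Cl U Z) {o : H U Z} (g : Gen k o) :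
    Gen (k + n) (xq (U ×ˢ O) (Z ×ˢ {y}) o ϖ) := by
  obtain ⟨h1, h2⟩ := h.ex X U Z c
  refine ⟨isZ_xq g.isZ h.isZ, isDeg_xq g.deg h.deg, fun e => g.ne (h1.1 (e.trans (by simp [xq]))),
    fun b hb hd => ?_, fun b hd => ?_⟩
  · obtain ⟨a, a1, rfl⟩ := h2 b hb
    obtain ⟨m, rfl⟩ := g.int a a1 (isDeg_of_cup (h.deg.pull _ _ _) h1.1 hd)
    exact ⟨m, xq_smul _ _ _⟩
  · obtain ⟨a, rfl⟩ := h1.2 b
    obtain ⟨m, rfl⟩ := g.span a (isDeg_of_cup (h.deg.pull _ _ _) h1.1 hd)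
    exact ⟨m, xq_smul _ _ _⟩

theorem PT.van (h : PT n ϖ) (c : Cl U Z) (v : ∀ a : H U Z, IsDeg k a → a = 0)
    {b : H (U ×ˢ O) (Z ×ˢ {y})} (hb : IsDeg (k + n) b) : b = 0 := by
  obtain ⟨h1, -⟩ := h.ex X U Z c
  obtain ⟨a, rfl⟩ := h1.2 b
  rw [v a (isDeg_of_cup (h.deg.pull _ _ _) h1.1 hb)]
  simp [xq]

/-- a chart at `y` with model `N` -/
def PtC (N : Type) [TopologicalSpace N] [Zero N] (y : Y) : Prop :=
  ∃ e : OpenPartialHomeomorph N Y, 0 ∈ e.source ∧ e 0 = y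

theorem PtC.prod (h : PtC N y) (h' : PtC N' y') : PtC (N × N') (y, y') := by
  obtain ⟨e, h1, h2⟩ := h
  obtain ⟨e', k1, k2⟩ := h'
  exact ⟨e.prod e', ⟨h1, k1⟩, Prod.ext h2 k2⟩

theorem PtC.aux (h : PtC N y) : ∃ ϖ : H (univ : Set Y) {y}, Gen (Module.finrank ℝ N) ϖ ∧
    PT (Module.finrank ℝ N) ϖ := by
  obtain ⟨e, h1, h2⟩ := h
  let φ := (Module.finBasis ℝ N).equivFun.symm.toContinuousLinearEquiv
  let e' := φ.toHomeomorph.toOpenPartialHomeomorph.trans e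
  have k1 : 0 ∈ e'.source := ⟨trivial, by simpa using h1⟩
  have k2 : e' 0 = y := by simpa [e'] using h2
  have z := zb_chart (.ofSet _ e'.open_source) k1 rfl
  obtain ⟨ϖ, g, a⟩ := ((gen_orR _).pul z).exists_pul (zb_chart e' k1 k2)
  exact ⟨ϖ, g, (PT_iff (zb_chart e' k1 k2) fun _ _ _ _ _ _ c => zb_chartU e' k1 k2 c).1
    (a ▸ (PT_iff z fun _ _ _ _ _ _ c => zb_chartU (.ofSet _ e'.open_source) k1 rfl c).2 (pt_orR _))⟩

theorem PtC.pt (h : PtC N y) {ϖ : H (univ : Set Y) {y}} (g : Gen (Module.finrank ℝ N) ϖ) :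
    PT (Module.finrank ℝ N) ϖ := by
  obtain ⟨ϖ', g', k⟩ := h.aux
  rcases g'.eq_or g with rfl | rfl
  exacts [k, k.neg]

theorem xq_xp {ϖ : H (univ : Set Y) {y}} (o : H U Z) :
    pull id (U ×ˢ univ) (Z ×ˢ univ) (xq (U ×ˢ univ) (Z ×ˢ {y}) o ϖ) = xp o (pull id univ univ ϖ) := by
  rw [pull_xq (B := Z ×ˢ univ) (B₁ := Z ×ˢ univ) (B₂ := univ) subset_rfl (fun _ _ a b => mk_mem_prod a b)
    (.id subset_rfl fun _ _ k => ⟨k.1, trivial⟩) (fun _ _ k => ⟨k, trivial⟩) (fun _ _ _ => trivial)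
    fun _ _ a _ => a, xp, pull_res (ok_snd' _ _) subset_rfl fun _ _ _ => trivial]
  rfl

/-- `ω` comes from a point class -/
def PtW (N : Type) [NormedAddCommGroup N] [NormedSpace ℝ N] (y : Y) (n : ℤ) (ω : H (univ : Set Y) univ) : Prop :=
  PtC N y ∧ n = Module.finrank ℝ N ∧ ∃ ϖ : H (univ : Set Y) {y}, Gen n ϖ ∧ pull id univ univ ϖ = ω

variable {ω : H (univ : Set Y) univ} {ω' : H (univ : Set Y') univ}

theorem PtW.ex (h : PtW N y n ω) : ∃ ϖ : H (univ : Set Y) {y}, Gen n ϖ ∧ PT n ϖ ∧ pull id univ univ ϖ = ω := by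
  obtain ⟨h, rfl, ϖ, g, e⟩ := h
  exact ⟨ϖ, g, h.pt g, e⟩

theorem PtW.prod (h : PtW N y n ω) (h' : PtW N' y' n' ω') :
    PtW (N × N') (y, y') (n + n') (pull Prod.fst univ univ ω * pull Prod.snd univ univ ω') := by
  obtain ⟨ϖ, g, -, rfl⟩ := h.ex
  obtain ⟨ϖ', -, g', rfl⟩ := h'.ex
  have z : ZB id univ {(y, y')} (univ ×ˢ univ) ({y} ×ˢ {y'}) := by
    rw [univ_prod_univ, singleton_prod_singleton]
    exact .refl
  refine ⟨h.1.prod h'.1, by rw [h.2.1, h'.2.1, Module.finrank_prod, Nat.cast_add], _,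
    (g'.gen (.of_isClosed isClosed_singleton _) g).pul z, ?_⟩
  rw [res_pull (W₁ := univ) z.ok subset_rfl fun _ _ _ => trivial,
    pull_xq (U := univ) (U' := univ) (O := univ) (B := univ) (B₁ := univ) (B₂ := univ) subset_rfl
    (fun _ _ a b => mk_mem_prod a b) (.id univ_prod_univ.ge fun _ _ _ => trivial) (fun _ _ _ => trivial) (fun _ _ _ => trivial) fun _ _ _ _ => trivial,
    pull_res (okC continuous_fst _) subset_rfl fun _ _ _ => trivial,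
    pull_res (okC continuous_snd _) subset_rfl fun _ _ _ => trivial]
  rfl

/-- the chart of the circle at `t` -/
def cE (t : Circle) : OpenPartialHomeomorph ℝ Circle where
  toFun r := t * cs r
  invFun := cch t
  source := {r | |r| < π / 2}
  target := cdom t
  map_source' _ h := cs_cdom t h
  map_target' _ h := cch_mem h
  left_inv' _ h := cch_cs t h
  right_inv' a _ := cs_cch t a
  open_source := isOpen_lt continuous_abs continuous_const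
  open_target := isOpen_cdom t
  continuousOn_toFun := (continuous_const.mul continuous_cs).continuousOn
  continuousOn_invFun _ h := (contAt_cch h).continuousWithinAt

theorem cE_src (t : Circle) : 0 ∈ (cE t).source := by simpa [cE] using pi_pos

theorem cE_zero (t : Circle) : cE t 0 = t := by simp [cE, cs_zero]

theorem ptW_dt (a : Circle) : PtW ℝ a 1 dt := by
  have h : PtC ℝ a := ⟨cE a, cE_src a, cE_zero a⟩
  obtain ⟨ϖ, g, -⟩ := h.aux
  rw [Module.finrank_self, Nat.cast_one] at g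
  refine ⟨h, by simp, ?_⟩
  rcases gen_supp_sign (Z := univ) rfl (diff_diff_supp fun _ _ _ => trivial) gen_dt g (van_circ a) with e | e
  · exact ⟨ϖ, g, e⟩
  · exact ⟨-ϖ, g.neg, by rw [map_neg, e, neg_neg]⟩

theorem ptW_w2 (t : T2) : PtW (ℝ × ℝ) t 2 w2 := (ptW_dt t.1).prod (ptW_dt t.2)

theorem ptW_w3 (t : T3) : PtW (ℝ × ℝ × ℝ) t 3 w3 := (ptW_dt t.1).prod (ptW_w2 t.2)

theorem sl_xq (t : Top univ n ω) {ϖ : H (univ : Set Y) {y}} (e : pull id univ univ ϖ = ω) (o : H U Z) :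
    sl n ω U Z (xq (U ×ˢ univ) (Z ×ˢ {y}) o ϖ) = o := by
  rw [← sl_resZ, xq_xp, e, t.sl_top]

theorem zb_chart' (e : OpenPartialHomeomorph Y' Y) (o : IsOpen O') (h : O' ⊆ e.source) (hx : y' ∈ O')
    {W : Set Y} (hO : O = univ) (hW : W = {e y'}) : ZB e O' {y'} O W := by
  subst hO hW
  have := zb_chart (e.restrOpen O' o) ⟨h hx, hx⟩ rfl
  rwa [e.restrOpen_source, inter_eq_right.2 h] at this

theorem gen_JJ0 {X' : Type} [TopologicalSpace X'] [RegularSpace X'] [SecondCountableTopology X'] {U' Z' : Set X'}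
    {W : Set X} {A : Set (X × Y)} {R : Set Y} (j : JOK U univ A R W) (t : Top univ n ω)
    (p : PtG univ n ω y) {f : X' → X} (o : Ok f U' Z' U W) (cl : Cl U' Z')
    (s : ∀ v ∈ U', ∀ τ, (f v, τ) ∈ A → τ ∈ R → τ = y) {b : H (U ×ˢ univ) A}
    (g : CutOK (univ ×ˢ R) (U' ×ˢ univ) (Prod.map f id ⁻¹' A) (Z' ×ˢ {y}) →
      Ok (Prod.map f id) (U' ×ˢ univ) (Prod.map f id ⁻¹' A) (U ×ˢ univ) A →
      Gen (k + n) (cutH (univ ×ˢ R) (U' ×ˢ univ) (Z' ×ˢ {y})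
        (pull (Prod.map f id) (U' ×ˢ univ) (Prod.map f id ⁻¹' A) b))) :
    Gen k (pull f U' Z' (JJ n ω U W R b)) := by
  have j' : JOK U' univ (Prod.map f id ⁻¹' A) R Z' :=
    ⟨fun x h k => j.nf (Prod.map f id x) ⟨o.maps h.1, trivial⟩ k,
      fun x h k r => o.mem h.1 (j.sub (Prod.map f id x) ⟨o.maps h.1, trivial⟩ k r)⟩
  have c : CutOK (univ ×ˢ R) (U' ×ˢ univ) (Prod.map f id ⁻¹' A) (Z' ×ˢ {y}) :=
    ⟨j'.ok.nf, fun x h k r => ⟨j'.sub x h k r.2, s _ h.1 _ k r.2⟩⟩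
  have := j.map j' t t o .refl (k := 1) (by rw [pull_id, one_smul]) (fun _ _ k => k) (fun _ _ _ => Iff.rfl) b
  rw [one_smul] at this
  rw [← this, JJ_apply, ← c.res_out (W' := Z' ×ˢ univ) fun _ _ k => ⟨k.1, trivial⟩, sl_resZ]
  exact p _ _ _ cl _ _ (g c (.of_mem (o.ext.prodMap (.of_continuous continuous_id _))
    (fun _ h => ⟨o.maps h.1, trivial⟩) fun _ _ k => k))

/-- the local degree of an integral over a region -/
theorem gen_JJ {W : Set X} {A : Set (X × Y)} {R : Set Y} (j : JOK U univ A R W) (t : Top univ n ω)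
    (p : PtG univ n ω y) {f : N → X} (o : Ok f univ {0} U W) (e : OpenPartialHomeomorph N' Y)
    (h0 : 0 ∈ e.source) (ey : e 0 = y) (hR : R ∈ 𝓝 y) (s : ∀ v τ, (f v, τ) ∈ A → τ ∈ R → v = 0 ∧ τ = y)
    {b : H (U ×ˢ univ) A} (g : ∀ O : Set (N × N'), IsOpen O → 0 ∈ O →
      Ok (fun z => (f z.1, e z.2)) O {0} (U ×ˢ univ) A → Gen (k + n) (pull (fun z => (f z.1, e z.2)) O {0} b)) :
    Gen k (pull f univ {0} (JJ n ω U W R b)) := by
  refine gen_JJ0 j t p o (.of_isClosed isClosed_singleton _) (fun v _ τ a b => (s v τ a b).2) fun c o5 => ?_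
  set O : Set (N × N') := univ ×ˢ (e.source ∩ e ⁻¹' interior R)
  have o1 : IsOpen O := isOpen_univ.prod (e.isOpen_inter_preimage isOpen_interior)
  have o2 : 0 ∈ O := ⟨trivial, h0, by rwa [mem_preimage, Prod.snd_zero, ey, mem_interior_iff_mem_nhds]⟩
  have o3 : ∀ z ∈ O, (f z.1, e z.2) ∈ A → z = 0 := fun z h k =>
    (s _ _ k (interior_subset h.2.2)).elim fun a b => Prod.ext a (e.injOn h.2.1 h0 (b.trans ey.symm))
  have z : ZB (Prod.map id e) O {0} (univ ×ˢ univ) ({0} ×ˢ {y}) :=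
    zb_chart' ((OpenPartialHomeomorph.refl N).prod e) o1 (fun _ h => ⟨trivial, h.2.1⟩) o2 univ_prod_univ
      (by rw [singleton_prod_singleton, ← ey]; rfl)
  have o4 : Ok (Prod.map id e) O {0} (univ ×ˢ univ) (Prod.map f id ⁻¹' A) := .of_mem z.ok.ext z.ok.maps o3
  refine Gen.of_pul ?_ z
  rw [c.pul (O' := univ) (Z' := {0}) ⟨by simp, fun _ _ k _ => k⟩ o4 z.ok
    fun _ h _ => iff_of_true trivial ⟨trivial, interior_subset h.2.2⟩,
    CutOK.all (O := univ) ⟨by simp, fun _ _ k _ => k⟩ fun _ _ _ => trivial, pull_id,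
    pull_pull o4 o5]
  exact g O o1 o2 (o5.comp o4)

/-- only the values on the support of the other factor matter -/
theorem cup_congr_left {E A A' B W : Set X} {f g : X → Y} {C : Set Y} (o : Ok f E A O C) (o' : Ok g E A' O C)
    (e : ∀ x ∈ E, x ∈ B → f x = g x) (h : ∀ x ∈ E, x ∈ A → x ∈ B → x ∈ W)
    (h' : ∀ x ∈ E, x ∈ A' → x ∈ B → x ∈ W) (a : H O C) (b : H E B) :
    cup E W (pull f E A a) b = cup E W (pull g E A' a) b := by
  have c : CupOK (E ∩ B) W E B E W := ⟨fun _ k => .inr k, fun x k => (em (x ∈ B)).imp (⟨k, ·⟩) (⟨k, ·⟩),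
    fun x k => (em (x ∈ B)).imp (⟨⟨k.1, ·⟩, k.2⟩) (⟨k.1, ·⟩)⟩
  rw [← cup_res_left (.id inter_subset_left fun x k a => h x k.1 a k.2) c,
    ← cup_res_left (.id inter_subset_left fun x k a => h' x k.1 a k.2) c,
    res_pull o inter_subset_left fun x k a => h x k.1 a k.2,
    res_pull o' inter_subset_left fun x k a => h' x k.1 a k.2, pull_congr fun x k => e x k.1 k.2]

/-- an integral class whose image is a generator is a generator -/
theorem gen_of_map {f : Y → X} {W : Set Y} {g a : H U Z} (hg : Gen k g) (z : IsZ a) (d : IsDeg k a)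
    (h : Gen k (pull f O W a)) : Gen k a := by
  obtain ⟨s, rfl⟩ := hg.int a z d
  obtain ⟨t, e⟩ := h.int _ (hg.isZ.pul f O W) (hg.deg.pull _ _ _)
  have e' := congrArg ((s : ℂ) • ·) e
  simp only [← map_smul, smul_smul] at e'
  rw [map_smul, map_smul, ← mul_assoc, mul_smul, ← map_smul, ← map_smul, map_smul _ (_ * _ : ℂ)] at e'
  have := h.smul_inj ((one_smul _ _).trans e')
  rcases Int.eq_one_or_neg_one_of_mul_eq_one (u := s) (v := t) (by exact_mod_cast this.symm) with rfl | rfl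
  · simpa using hg
  · simpa using hg.neg

end Pool.Agent.Work.MP_8c604c_gt.OT
end
end
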