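import Pool.Agent.Work.MP_8c604c_gt.OT.LT
import Pool.Agent.Work.MP_8c604c_gt.OD.JP
import Pool.Agent.Work.MP_8c604c_gt.OG.HS

-- merged part: Pool.Agent.Work.MP_8c604c_gt.OT.LTM
section
/-!
The classes `tauD` and `thF` are local Thom classes (owner helper12).
-/

noncomputable section

set_option linter.unusedSectionVars false

namespace Pool.Agent.Work.MP_8c604c_gt.OT

open Set Real Topology Filter Module Pool.Agent.Work.MP_849ab0_ag.G T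

variable {V : Type} [NormedAddCommGroup V] [InnerProductSpace ℝ V] [FiniteDimensional ℝ V]
  {𝕄 : Mf V} {p q : V}

theorem Ch.der (C : Ch 𝕄) (a : RN 16) : HasFDerivAt (fun v => C.φ (a + v)) (fderiv ℝ C.φ a) 0 := by
  have h : HasFDerivAt C.φ (fderiv ℝ C.φ a) (a + 0) := by
    rw [add_zero]
    exact (C.sm.differentiable (by simp) a).hasFDerivAt
  exact (h.comp 0 ((hasFDerivAt_id (0 : RN 16)).const_add a) :)

theorem Ch.tan (C : Ch 𝕄) (a : RN 16) {u : V} : 𝕄.Tan (C.φ a) u ↔ ∃ v, fderiv ℝ C.φ a v = u := by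
  have h := (C.sm.differentiable (by simp) a).hasFDerivAt
  have e : (𝕄.tp (C.φ a)).comp (fderiv ℝ C.φ a) = fderiv ℝ C.φ a :=
    ((𝕄.der _ (C.mem a).1).comp a h).unique (h.congr_of_eventuallyEq
      (.of_forall fun v => 𝕄.fix _ (C.mem v).1))
  have le : LinearMap.range (fderiv ℝ C.φ a : RN 16 →ₗ[ℝ] V) ≤ LinearMap.range (𝕄.tp (C.φ a) : V →ₗ[ℝ] V) := by
    rintro _ ⟨v, rfl⟩
    exact ⟨_, ContinuousLinearMap.ext_iff.1 e v⟩
  have eq := Submodule.eq_of_le_of_finrank_eq le (by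
    rw [𝕄.rb.rank _ (C.mem a).1, LinearMap.finrank_range_of_inj (C.inj a)]
    simp)
  exact ⟨fun k => eq.ge ⟨u, k.2⟩, fun ⟨v, k⟩ => k ▸ ⟨(C.mem a).1, ContinuousLinearMap.ext_iff.1 e v⟩⟩

namespace TD1

variable (D : TD1 𝕄) (Q : MT 𝕄)

include D in
theorem lt_MM {B : Type} [NormedAddCommGroup B] [NormedSpace ℝ B] [FiniteDimensional ℝ B]
    {F : Set (V × V)} {b : H 𝕄.MM F} {ℓ : V × V →L[ℝ] B} (hp : p ∈ 𝕄.M) (hq : q ∈ 𝕄.M) (hz : IsZ b)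
    (hb : IsDeg (finrank ℝ B) b) (su : ∀ β, ∃ ξ η, 𝕄.Tan p ξ ∧ 𝕄.Tan q η ∧ ℓ (ξ, η) = β)
    (cone : ∀ η, 0 < η → ∀ᶠ x in 𝓝 (p, q), x ∈ 𝕄.MM → x ∈ F → x ∈ Cn ℓ (p, q) η)
    {T : Set (V × V)} (hT : T ⊆ 𝕄.MM) (tF : ∀ x ∈ T, x ∈ F → x = (p, q))
    (g : Gen (finrank ℝ B) (pull id T {(p, q)} b))
    (tr : ∃ η, 0 < η ∧ ∀ᶠ x in 𝓝 (p, q), x ∈ T → x ∈ Cn ℓ (p, q) η → x = (p, q)) :
    LT (finrank ℝ B) b (p, q) ℓ := by
  obtain ⟨C, hC⟩ := D.cover p hp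
  obtain ⟨C', hC'⟩ := D.cover q hq
  obtain ⟨a, rfl⟩ : ∃ a, C.φ a = p := ⟨_, C.ri p ⟨hp, hC⟩⟩
  obtain ⟨a', rfl⟩ : ∃ a, C'.φ a = q := ⟨_, C'.ri q ⟨hq, hC'⟩⟩
  have e : (C.φ a, C'.φ a') = (fun v : RN 16 × RN 16 => (C.φ (a + v.1), C'.φ (a' + v.2))) 0 := by simp
  rw [e] at cone tF g tr ⊢
  have c1 := C.sm.continuous
  have c2 := C'.sm.continuous
  refine LT.of_chart (χ := fun y => (C.χ y.1 - a, C'.χ y.2 - a')) (O := C.O ×ˢ C'.O)
    (A := (fderiv ℝ C.φ a).prodMap (fderiv ℝ C'.φ a')) hz hb lc_MM (C.opn.prod C'.opn) (by fun_prop)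
    (((C.cχ.comp continuousOn_fst fun _ h => h.2.1).sub continuousOn_const).prodMk
      ((C'.cχ.comp continuousOn_snd fun _ h => h.2.2).sub continuousOn_const))
    (fun v => ⟨⟨(C.mem _).1, (C'.mem _).1⟩, (C.mem _).2, (C'.mem _).2⟩) (fun v => by simp [C.li, C'.li])
    (fun y h => by simp [C.ri _ ⟨h.1.1, h.2.1⟩, C'.ri _ ⟨h.1.2, h.2.2⟩])
    (HasFDerivAt.prodMap (0 : RN 16 × RN 16) (C.der a) (C'.der a')) ((C.inj a).prodMap (C'.inj a'))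
    (fun β => ?_) cone hT tF g tr
  obtain ⟨ξ, η, h1, h2, rfl⟩ := su β
  obtain ⟨v, rfl⟩ := (C.tan a).1 h1
  obtain ⟨v', rfl⟩ := (C'.tan a').1 h2
  exact ⟨(v, v'), rfl⟩

include D in
theorem exists_lD (hp : p ∈ 𝕄.M) : ∃ ℓ : V × V →L[ℝ] RN 16, LT 16 Q.tauD (p, p) ℓ ∧
    ∀ ξ η, 𝕄.Tan p ξ → 𝕄.Tan p η → ℓ (ξ, η) = 0 → ξ = η := by
  obtain ⟨C, hC⟩ := D.cover p hp
  obtain ⟨a, rfl⟩ : ∃ a, C.φ a = p := ⟨_, C.ri p ⟨hp, hC⟩⟩
  obtain ⟨l, hl⟩ := (fderiv ℝ C.φ a : RN 16 →ₗ[ℝ] V).exists_leftInverse_of_injective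
    (LinearMap.ker_eq_bot.2 (C.inj a))
  have hl : ∀ v, l (fderiv ℝ C.φ a v) = v := fun v => LinearMap.congr_fun hl v
  let ℓ : V × V →L[ℝ] RN 16 := (LinearMap.toContinuousLinearMap l).comp
    (ContinuousLinearMap.snd ℝ V V - ContinuousLinearMap.fst ℝ V V)
  have e : ∀ ξ η, ℓ (ξ, η) = l (η - ξ) := fun _ _ => rfl
  have r : (16 : ℤ) = finrank ℝ (RN 16) := by simp
  refine ⟨ℓ, r ▸ D.lt_MM hp hp (D.isZ_tauD Q) (r ▸ D.isDeg_tauD Q) (fun β => ⟨0, _, geob_tan_zero hp,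
    (C.tan a).2 ⟨β, rfl⟩, by rw [e, sub_zero, hl]⟩) (fun η hη => .of_forall fun x _ k => Cn_zero hη.le ?_)
    (T := {C.φ a} ×ˢ 𝕄.M) (prod_mono_left (singleton_subset_iff.2 hp))
    (fun x h k => Prod.ext h.1 (k.symm.trans h.1)) ?_ ?_, fun ξ η h1 h2 k => ?_⟩
  · change l (x.2 - C.φ a - (x.1 - C.φ a)) = 0
    rw [show x.1 = x.2 from k, sub_self, map_zero]
  · have z : ZB (fun q => (C.φ a, q)) 𝕄.M {C.φ a} ({C.φ a} ×ˢ 𝕄.M) {(C.φ a, C.φ a)} :=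
      .of_inv (s := Prod.snd) (.of_mem (.of_continuous (by fun_prop) _) (fun _ h => ⟨rfl, h⟩)
        fun _ _ k => congrArg Prod.snd k) (.of_mem (.of_continuous continuous_snd _) (fun _ h => h.2)
        fun _ h k => Prod.ext h.1 k) (fun _ _ => rfl) fun _ h => Prod.ext h.1.symm rfl
    refine Gen.of_pul ?_ z
    rw [pull_res (U' := 𝕄.MM) (Z' := Dg V) z.ok (prod_mono_left (singleton_subset_iff.2 hp))
      fun x h k => Prod.ext h.1 (k.symm.trans h.1), D.tauD_slice Q hp, ← r]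
    exact D.gen_pt Q hp
  · obtain ⟨η, hη, k⟩ := cn_miss (ℓ := ℓ) ((hasFDerivAt_const (C.φ a) 0).prodMk (C.der a)) fun v v' k => by
      simpa [e, hl] using k
    refine ⟨η, hη, ?_⟩
    have t : Tendsto (fun x : V × V => C.χ x.2 - a) (𝓝 (C.φ a, C.φ a)) (𝓝 0) := by
      have := ((C.cχ.continuousAt (C.opn.mem_nhds hC)).comp (f := Prod.snd) (x := (C.φ a, C.φ a))
        continuousAt_snd).sub (continuousAt_const (y := a))
      simp only [ContinuousAt, Pi.sub_apply, Function.comp_apply, C.li, sub_self] at this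
      exact this
    filter_upwards [t.eventually k, continuous_snd.continuousAt.eventually (C.opn.mem_nhds hC)]
      with x h1 h2 h3 h4
    have e1 : x = (C.φ a, C.φ (a + (C.χ x.2 - a))) :=
      Prod.ext h3.1 (by rw [add_sub_cancel, C.ri _ ⟨h3.2, h2⟩])
    rw [add_zero, ← e1] at h1
    rw [e1, h1 h4, add_zero]
  · obtain ⟨v, rfl⟩ := (C.tan a).1 h1
    obtain ⟨v', rfl⟩ := (C.tan a).1 h2
    rw [e, map_sub, hl, hl, sub_eq_zero] at k
    rw [k]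

theorem exists_lF {c : LM V} (hc : c ∈ D.S) : ∃ ℓ : V × V →L[ℝ] (Fin 8 → ℝ),
    LT 8 (D.thF Q) (D.en c) ℓ ∧ ∀ ξ η, ℓ (ξ, η) = 0 → D.TF c ξ η := by
  obtain ⟨W, hW, mW⟩ := D.link c hc
  let b := finBasisOfFinrankEq ℝ W hW
  let ℓ : V × V →L[ℝ] (Fin 8 → ℝ) := .pi fun i =>
    (D.gm (c 1) (b i).1.1).comp (.fst ℝ V V) - (D.gm (c (cs (π / 2))) (b i).1.2).comp (.snd ℝ V V)
  have e : ∀ y i, ℓ y i = D.gm (c 1) (b i).1.1 y.1 - D.gm (c (cs (π / 2))) (b i).1.2 y.2 := fun _ _ => rfl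
  have mv : ∀ c' ∈ D.S, Lk c c' → (D.vel c', D.vel (sh (cs (π / 2)) c')) ∈ W := fun c' h k =>
    (mW _).2 ⟨c', h, k, 1, zero_le_one, (one_smul _ _).symm⟩
  have tf : ∀ ξ η, ℓ (ξ, η) = 0 → D.TF c ξ η := fun ξ η k c' h h' => by
    have : ((D.gm (c 1)).flip ξ : V →ₗ[ℝ] ℝ) ∘ₗ LinearMap.fst ℝ V V ∘ₗ W.subtype =
        ((D.gm (c (cs (π / 2)))).flip η : V →ₗ[ℝ] ℝ) ∘ₗ LinearMap.snd ℝ V V ∘ₗ W.subtype :=
      b.ext fun i => sub_eq_zero.1 ((e _ i).symm.trans (congrFun k i))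
    exact LinearMap.congr_fun this ⟨_, mv c' h h'⟩
  have t1 : ∀ c' ∈ D.S, Lk c c' → 𝕄.Tan (c 1) (D.vel c') := fun c' h k => k.1 ▸ D.tan c' h
  have t2 : ∀ c' ∈ D.S, Lk c c' → 𝕄.Tan (c (cs (π / 2))) (D.vel (sh (cs (π / 2)) c')) := fun c' h k =>
    k.2 ▸ sh_at_one (cs (π / 2)) c' ▸ D.tan _ (D.inv _ c' h)
  have r : (8 : ℤ) = finrank ℝ (Fin 8 → ℝ) := by simp
  refine ⟨ℓ, r ▸ D.lt_MM (D.mem c hc _) (D.mem c hc _) (D.isZ_thF Q) (r ▸ D.isDeg_thF Q) (fun β => ?_)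
    (fun η hη => ?_) (T := {y | y ∈ 𝕄.Od ∧ D.hat y ∈ ({D.en c} : Set _)}) (fun _ h => h.1.1)
    (fun x h k => (D.hat_of_mem k).symm.trans h.2) ?_ ?_, tf⟩
  · let L : W →ₗ[ℝ] Fin 8 → ℝ := (ℓ : V × V →ₗ[ℝ] _) ∘ₗ LinearMap.inl ℝ V V ∘ₗ LinearMap.fst ℝ V V ∘ₗ W.subtype
    have i : Function.Injective L := (injective_iff_map_eq_zero _).2 fun w k => by
      obtain ⟨c', h, h', t, -, et⟩ := (mW _).1 w.2
      have := tf w.1.1 0 k c' h h'
      rw [map_zero, et, Prod.smul_fst, map_smul, smul_eq_zero] at this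
      refine Subtype.ext (et.trans ?_)
      rw [this.resolve_right (D.pos _ _ (t1 c' h h') (D.vne c' h)).ne', zero_smul]
      rfl
    obtain ⟨w, rfl⟩ := (LinearMap.injective_iff_surjective_of_finrank_eq_finrank (by simp [hW])).1 i β
    obtain ⟨c', h, h', t, -, et⟩ := (mW _).1 w.2
    exact ⟨w.1.1, 0, et ▸ (t1 c' h h').rsmul t, geob_tan_zero (D.mem c hc _), rfl⟩
  · have : ∀ i, ∀ᶠ x in 𝓝 (c 1, c (cs (π / 2))), x ∈ D.F →
        ‖ℓ (x - (c 1, c (cs (π / 2)))) i‖ ≤ η * ‖x - (c 1, c (cs (π / 2)))‖ := fun i => by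
      obtain ⟨c', h, h', t, t0, et⟩ := (mW _).1 (b i).2
      obtain ⟨δ, hδ, k⟩ := D.cone (η / (t + 1)) (by positivity)
      filter_upwards [Metric.ball_mem_nhds _ hδ] with x hx m
      have := k c' h x m (by rwa [h'.1, h'.2, ← dist_eq_norm])
      rw [h'.1, h'.2] at this
      rw [e, et]
      simp only [Prod.smul_fst, Prod.smul_snd, map_smul, smul_apply, smul_eq_mul,
        ← mul_sub, norm_mul, Real.norm_eq_abs, abs_of_nonneg t0, Prod.fst_sub, Prod.snd_sub]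
      refine (mul_le_mul (le_add_of_nonneg_right zero_le_one) this (abs_nonneg _) (by positivity)).trans_eq ?_
      field_simp
    filter_upwards [eventually_all.2 this] with x h _ m
    exact (pi_norm_le_iff_of_nonneg (by positivity)).2 fun i => h i m
  · have g := (D.thZ_thF Q (B := {D.en c}) (U := {y | y ∈ 𝕄.Od ∧ D.hat y ∈ ({D.en c} : Set _)})
      isClosed_singleton.isLocallyClosed
      (singleton_subset_iff.2 (D.en_mem hc)) fun _ => Iff.rfl).gen isConnected_singleton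
    have z := g.pul (ZB.of_eq (Z₁ := {D.en c}) fun x h => ⟨fun k => (D.hat_of_mem k).symm.trans h.2,
      fun k => k ▸ D.en_mem hc⟩)
    rw [res_pull (W₁ := {D.en c}) (U' := 𝕄.MM) (.id (fun _ h => by exact h.1.1) fun _ _ k => k) subset_rfl
      fun x h k => by exact (D.hat_of_mem k).symm.trans h.2] at z
    exact r ▸ z
  · let L : W →L[ℝ] Fin 8 → ℝ := ℓ.comp ((ContinuousLinearMap.inr ℝ V V).comp
      ((ContinuousLinearMap.snd ℝ V V).comp W.subtypeL))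
    obtain ⟨κ, k0, hκ⟩ := exists_lower (L := L) ((injective_iff_map_eq_zero _).2 fun w k => by
      obtain ⟨c', h, h', t, -, et⟩ := (mW _).1 w.2
      have := tf 0 w.1.2 k c' h h'
      rw [map_zero, et, Prod.smul_snd, map_smul, eq_comm, smul_eq_zero] at this
      refine Subtype.ext (et.trans ?_)
      rw [this.resolve_right (D.pos _ _ (t2 c' h h') (D.vne _ (D.inv _ c' h))).ne', zero_smul]
      rfl)
    obtain ⟨m, -, hm, -⟩ : ∃ m M : ℝ, (∀ c ∈ D.S, 1 ≤ m * ‖D.vel c‖) ∧ ∀ c ∈ D.S, ‖D.vel c‖ ≤ M := by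
      obtain ⟨m, M, h⟩ := D.geob_vel
      exact ⟨m, M, fun c k => (h c k).1, fun c k => (h c k).2⟩
    have m0 : 0 < m := by
      by_contra w
      nlinarith [hm c hc, norm_nonneg (D.vel c)]
    obtain ⟨δ, hδ, k⟩ := D.dif (min 1 (κ / 4 / (‖ℓ‖ + 1)) / m) (by positivity)
    have ct := (D.cont_lt _ (D.F_MM (D.en_mem hc))).eventually (lt_mem_nhds (show π / 2 - δ < D.lt (D.en c) by
      rw [← D.d_eq (D.F_MM (D.en_mem hc)), D.d_F (D.en_mem hc)]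
      linarith))
    refine ⟨κ / 4, by positivity, (eventually_nhdsWithin_iff.1 ct).mono fun x h1 h2 h3 => ?_⟩
    obtain ⟨hc', e1, ht, e2⟩ := D.lc_spec h2.1
    have lk : Lk c (D.lc x) := ⟨e1.trans (congrArg Prod.fst h2.2), congrArg Prod.snd h2.2⟩
    have s0 : 0 ≤ π / 2 - D.lt x := sub_nonneg.2 ht.2
    have k1 := k _ (D.inv (cs (π / 2)) _ hc') (-(π / 2 - D.lt x)) (by
      rw [abs_neg, abs_of_nonneg s0]
      linarith [h1 h2.1.1])
    rw [sh_cs, sh_at_one, lk.2, abs_neg, abs_of_nonneg s0, show π / 2 + -(π / 2 - D.lt x) = D.lt x by ring,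
      e2] at k1
    set s := π / 2 - D.lt x with hs
    set w : W := ⟨_, mv _ hc' lk⟩ with hw
    set u := x.2 - c (cs (π / 2)) - -s • D.vel (sh (cs (π / 2)) (D.lc x)) with hu
    have ex : x - (c 1, c (cs (π / 2))) = (0, u) - s • (0, w.1.2) := Prod.ext
      (by simp [← e1, lk.1]) (by simp [hu, hw])
    have w1 : 1 ≤ m * ‖w‖ := (hm _ hc').trans (mul_le_mul_of_nonneg_left (norm_fst_le w.1) m0.le)
    have u1 : ‖u‖ ≤ min 1 (κ / 4 / (‖ℓ‖ + 1)) * (s * ‖w‖) := k1.trans (by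
      rw [div_mul_eq_mul_div, div_le_iff₀ m0, mul_assoc, mul_assoc]
      exact mul_le_mul_of_nonneg_left (by nlinarith) (by positivity))
    have p0 : 0 ≤ s * ‖w‖ := by positivity
    have n1 : ‖((0 : V), u)‖ = ‖u‖ := by simp
    have a1 : ‖x - (c 1, c (cs (π / 2)))‖ ≤ 2 * (s * ‖w‖) := by
      rw [ex]
      refine (norm_sub_le _ _).trans ?_
      rw [n1, norm_smul, Real.norm_of_nonneg s0, Prod.norm_mk, norm_zero, max_eq_right (norm_nonneg _)]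
      nlinarith [u1.trans (mul_le_mul_of_nonneg_right (min_le_left _ _) p0),
        mul_le_mul_of_nonneg_left (norm_snd_le w.1) s0, show ‖w.1‖ = ‖w‖ from rfl]
    have a2 : ‖ℓ (0, u)‖ ≤ κ / 4 * (s * ‖w‖) := (ℓ.le_opNorm _).trans ((mul_le_mul
      (le_add_of_nonneg_right zero_le_one) (n1 ▸ u1.trans (mul_le_mul_of_nonneg_right (min_le_right _ _) p0))
      (norm_nonneg _) (by positivity)).trans_eq (by field_simp))
    have a3 := norm_sub_le (ℓ (0, u)) (ℓ (x - (c 1, c (cs (π / 2)))))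
    rw [← map_sub, ex, sub_sub_cancel, map_smul, norm_smul, Real.norm_of_nonneg s0, ← ex] at a3
    have a4 : κ * ‖w‖ ≤ ‖ℓ (0, w.1.2)‖ := hκ w
    have a5 : ‖ℓ (x - (c 1, c (cs (π / 2))))‖ ≤ κ / 4 * ‖x - (c 1, c (cs (π / 2)))‖ := h3
    have a6 : s * ‖w‖ ≤ 0 := by nlinarith [mul_le_mul_of_nonneg_left a4 s0]
    exact sub_eq_zero.1 (norm_le_zero_iff.1 (by linarith))

end TD1

end Pool.Agent.Work.MP_8c604c_gt.OT
end
end

-- merged part: Pool.Agent.Work.MP_8c604c_gt.OT.LD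
section
/-!
The two local degree computations (owner helper12).
-/

noncomputable section

set_option linter.unusedSectionVars false

namespace Pool.Agent.Work.MP_8c604c_gt.OT

open Set Real Topology Filter Module Asymptotics Pool.Agent.Work.MP_849ab0_ag.G T

variable {V : Type} [NormedAddCommGroup V] [InnerProductSpace ℝ V] [FiniteDimensional ℝ V]
  {𝕄 : Mf V} {m : ℕ} {E R : Type} [NormedAddCommGroup E] [NormedSpace ℝ E] [FiniteDimensional ℝ E]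
  [NormedAddCommGroup R] [NormedSpace ℝ R] [FiniteDimensional ℝ R]

theorem der_of_cont {Ψ : R → E →L[ℝ] V} (h : ContinuousAt Ψ 0) (u : R →L[ℝ] E) :
    HasFDerivAt (fun z => Ψ z (u z)) ((Ψ 0).comp u) 0 := by
  refine .of_isLittleO (IsLittleO.of_bound fun ε hε => ?_)
  have hu : 0 < ‖u‖ + 1 := by positivity
  filter_upwards [h.eventually (Metric.ball_mem_nhds _ (div_pos hε hu))] with z hz
  simp only [map_zero, sub_zero, ContinuousLinearMap.comp_apply, ← sub_apply]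
  refine ((Ψ z - Ψ 0).le_opNorm _).trans ((mul_le_mul (mem_ball_iff_norm.1 hz).le ((u.le_opNorm z).trans
    (mul_le_mul_of_nonneg_right (le_add_of_nonneg_right zero_le_one) (norm_nonneg _))) (norm_nonneg _)
      (by positivity)).trans_eq (by field_simp))

/-- evaluation of a family of loops at a moving point -/
theorem der_ev {Γ : E → LM V} {Γ' : E →L[ℝ] LM V} (h : HasFDerivAt Γ Γ' 0) (θ : Circle) {v : V}
    (hv : HasDerivAt (fun t => Γ 0 (θ * cs t)) v 0) (j : R →L[ℝ] ℝ) :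
    HasFDerivAt (fun z : E × R => Γ z.1 (θ * cs (j z.2)))
      (((ContinuousMap.evalCLM ℝ θ).comp Γ').comp (.fst ℝ E R) + (j.comp (.snd ℝ E R)).smulRight v) 0 := by
  have c := continuous_cs
  have h1 : HasFDerivAt (fun z : E × R => (Γ z.1 - Γ 0 - Γ' z.1) (θ * cs (j z.2))) (0 : E × R →L[ℝ] V) 0 :=
    .of_isLittleO (IsLittleO.of_bound fun ε hε => by
      filter_upwards [(continuous_fst.tendsto (0 : E × R)).eventually (h.isLittleO.def hε)] with z hz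
      rw [sub_zero] at hz
      simp only [Prod.fst_zero, map_zero, sub_self, ContinuousMap.zero_apply, sub_zero,
        zero_apply]
      exact (ContinuousMap.norm_coe_le_norm _ _).trans (hz.trans (mul_le_mul_of_nonneg_left (norm_fst_le z) hε.le)))
  have h2 : HasFDerivAt (fun z : E × R => Γ 0 (θ * cs (j z.2))) ((j.comp (.snd ℝ E R)).smulRight v) 0 := by
    have hv' : HasDerivAt (fun t => Γ 0 (θ * cs t)) v (j.comp (.snd ℝ E R) 0) := by simpa using hv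
    exact (hv'.hasFDerivAt.comp 0 (j.comp (.snd ℝ E R)).hasFDerivAt).congr_fderiv (by ext <;> simp)
  have h3 := der_of_cont (Ψ := fun z : E × R => (ContinuousMap.evalCLM ℝ (θ * cs (j z.2))).comp Γ')
    (Continuous.continuousAt (continuous_clm_apply.2 fun w => by
      change Continuous fun z : E × R => Γ' w (θ * cs (j z.2))
      fun_prop)) (.fst ℝ E R)
  refine ((h1.add h3).add h2).congr_of_eventuallyEq (.of_forall fun z => ?_) |>.congr_fderiv ?_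
  · simp
  · simp [cs_zero]

/-- quadruples of points -/
def Mf.M4 (𝕄 : Mf V) : Set (V × V × V × V) := 𝕄.M ×ˢ 𝕄.M ×ˢ 𝕄.M ×ˢ 𝕄.M

/-- the first and second point -/
def p01 : V × V × V × V →L[ℝ] V × V := (ContinuousLinearMap.fst ℝ _ _).prod
  ((ContinuousLinearMap.fst ℝ _ _).comp (.snd ℝ _ _))

/-- the first and third point -/
def p02 : V × V × V × V →L[ℝ] V × V := (ContinuousLinearMap.fst ℝ _ _).prod
  ((ContinuousLinearMap.fst ℝ _ _).comp ((ContinuousLinearMap.snd ℝ _ _).comp (.snd ℝ _ _)))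

/-- the first and fourth point -/
def p03 : V × V × V × V →L[ℝ] V × V := (ContinuousLinearMap.fst ℝ _ _).prod
  ((ContinuousLinearMap.snd ℝ _ _).comp ((ContinuousLinearMap.snd ℝ _ _).comp (.snd ℝ _ _)))

theorem p01_mem : MapsTo p01 𝕄.M4 𝕄.MM := fun _ h => ⟨h.1, h.2.1⟩

theorem p02_mem : MapsTo p02 𝕄.M4 𝕄.MM := fun _ h => ⟨h.1, h.2.2.1⟩

theorem p03_mem : MapsTo p03 𝕄.M4 𝕄.MM := fun _ h => ⟨h.1, h.2.2.2⟩

namespace TD1

variable (D : TD1 𝕄) (Q : MT 𝕄)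

/-- the support of `G4` -/
def Sg : Set (V × V × V × V) := (p02 ⁻¹' Dg V ∩ p01 ⁻¹' D.F) ∩ p03 ⁻¹' D.F

/-- the class of the quadruples `(p, q, p, q')` with `q`, `q'` cut points of `p` -/
def G4 : H 𝕄.M4 D.Sg := cup 𝕄.M4 D.Sg (cup 𝕄.M4 (p02 ⁻¹' Dg V ∩ p01 ⁻¹' D.F)
  (pull p02 𝕄.M4 (p02 ⁻¹' Dg V) Q.tauD) (pull p01 𝕄.M4 (p01 ⁻¹' D.F) (D.thF Q)))
  (pull p03 𝕄.M4 (p03 ⁻¹' D.F) (D.thF Q))

theorem isDeg_G4 : IsDeg 32 (D.G4 Q) :=
  IsDeg.cup (p := 16 + 8) (q := 8) (((D.isDeg_tauD Q).pull _ _ _).cup ((D.isDeg_thF Q).pull _ _ _) _ _)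
    ((D.isDeg_thF Q).pull _ _ _) _ _

theorem der_S {c : LM V} (hc : c ∈ D.S) : HasDerivAt (fun t => c (cs t)) (D.vel c) 0 :=
  hasDerivAt_iff_isLittleO.2 (IsLittleO.of_bound fun ε hε => by
    obtain ⟨δ, hδ, k⟩ := D.dif ε hε
    filter_upwards [Metric.ball_mem_nhds 0 hδ] with t ht
    simpa [cs_zero] using k c hc t (by simpa using ht))

theorem der_db {c : LM V} (hc : c ∈ D.S) (θ : Circle) :
    HasDerivAt (fun t => db c (θ * cs t)) ((2 : ℝ) • D.vel (sh (θ * θ) c)) 0 := by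
  have h : HasDerivAt (fun t => sh (θ * θ) c (cs t)) (D.vel (sh (θ * θ) c)) (2 * 0) := by
    simpa using D.der_S (D.inv (θ * θ) c hc)
  refine (h.scomp 0 ((hasDerivAt_id (0 : ℝ)).const_mul 2)).congr_of_eventuallyEq (.of_forall fun t => ?_)
    |>.congr_deriv (by simp)
  simp only [db_apply, sh_apply, Function.comp, two_mul, cs_add, mul_mul_mul_comm]

end TD1

theorem cs_q1 : cs (π / 4) * cs (π / 4) = cs (π / 2) := by rw [← cs_add]; ring_nf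

theorem cs_q2 : cs (π / 2) * cs (π / 2) = 1 := by rw [← cs_add, add_halves, cs_pi]

theorem cs_q3 : cs (3 * π / 4) * cs (3 * π / 4) = cs (π / 2) := by
  rw [← cs_add, ← cs_sub_pi]
  ring_nf

namespace TD

variable (D : TD 𝕄 m) (Q : MT 𝕄) {x : LM V × CM m} {L : E →L[ℝ] FB D.N D.N'}

theorem der_pu2 (hx : x ∈ D.S ×ˢ Sp m) (hL : ∀ w, (x, L w) ∈ tot2 D.S D.K D.P) :
    HasFDerivAt (fun w => (D.pu2 (x, L w)).1) ((D.X2 x).comp L) 0 :=
  .of_isLittleO (IsLittleO.of_bound fun ε hε => by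
    have hu : 0 < ‖L‖ + 1 := by positivity
    obtain ⟨δ, hδ, k⟩ := D.exp2 x hx _ (div_pos hε hu)
    filter_upwards [(L.continuous.tendsto' 0 0 (map_zero L)).eventually (Metric.ball_mem_nhds 0 hδ)] with w hw
    simp only [map_zero, sub_zero, D.zero2 x hx]
    exact (k _ (hL w) (mem_ball_zero_iff.1 hw)).trans ((mul_le_mul_of_nonneg_left ((L.le_opNorm w).trans
      (mul_le_mul_of_nonneg_right (le_add_of_nonneg_right zero_le_one) (norm_nonneg _)))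
        (by positivity)).trans_eq (by field_simp)))

theorem der_pt (hx : x ∈ D.S ×ˢ Sp m) (hL : ∀ w, (x, L w) ∈ tot2 D.S D.K D.P) (θ : Circle)
    (j : R →L[ℝ] ℝ) : HasFDerivAt (fun z : E × R => (D.pu2 (x, L z.1)).1 (θ * cs (j z.2)))
      (((ContinuousMap.evalCLM ℝ θ).comp ((D.X2 x).comp L)).comp (.fst ℝ E R) +
        (j.comp (.snd ℝ E R)).smulRight ((2 : ℝ) • D.vel (sh (θ * θ) x.1))) 0 :=
  der_ev (D.der_pu2 hx hL) θ (by simpa only [map_zero, D.zero2 x hx] using D.der_db hx.1 θ) j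

theorem cont_pt (hL : ∀ w, (x, L w) ∈ tot2 D.S D.K D.P) (θ : Circle) (j : R →L[ℝ] ℝ) :
    Continuous fun z : E × R => (D.pu2 (x, L z.1)).1 (θ * cs (j z.2)) := by
  have : Continuous fun w => D.pu2 (x, L w) := D.c2.comp_continuous (by fun_prop) hL
  exact continuous_eval.comp ((this.fst.comp continuous_fst).prodMk
    (continuous_const.mul (continuous_cs.comp (j.continuous.comp continuous_snd))))

theorem gm_vel {c : LM V} (hc : c ∈ D.S) (θ : Circle) :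
    0 < D.gm (c θ) (D.vel (sh θ c)) (D.vel (sh θ c)) :=
  D.pos _ _ (sh_at_one θ c ▸ D.tan _ (D.inv θ c hc)) (D.vne _ (D.inv θ c hc))

/-- the time shifts at two linked points -/
theorem tf_shift {v : FB D.N D.N'} (h : (x, v) ∈ tot2 D.S D.K D.P) {θ : Circle} (e : θ * θ = cs (π / 2))
    {s t : ℝ} (k : D.TF x.1 (D.X2 x v 1 + s • D.vel x.1) (D.X2 x v θ + t • D.vel (sh (cs (π / 2)) x.1))) :
    s = 0 ↔ t = 0 := by
  have k1 := k _ h.1.1 ⟨rfl, rfl⟩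
  have n1 := D.nor2 x v h 1
  have n2 := D.nor2 x v h θ
  have g1 := D.gm_vel h.1.1 1
  rw [mul_one] at n1
  rw [sh_one] at n1 g1
  rw [e] at n2
  rw [map_add, map_add, n1, n2, zero_add, zero_add, map_smul, map_smul] at k1
  exact ⟨fun a => by simpa [a, (D.gm_vel h.1.1 _).ne'] using k1, fun a => by simpa [a, g1.ne'] using k1⟩

/-- the local degree at a double geodesic -/
theorem nd2 (hx : x ∈ D.S ×ˢ Sp m) (hL : ∀ w, (x, L w) ∈ tot2 D.S D.K D.P) (i : Function.Injective L)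
    (r : finrank ℝ E + finrank ℝ R = 32) {j₀ j₁ j₂ j₃ : R →L[ℝ] ℝ} (h0 : j₀ = 0 ∨ j₃ = 0)
    (hj : ∀ ρ, j₀ ρ = 0 → j₁ ρ = 0 → j₂ ρ = 0 → j₃ ρ = 0 → ρ = 0) {O : Set (E × R)} (o : IsOpen O)
    (m0 : 0 ∈ O) {f : E × R → V × V × V × V} (e : ∀ z, f z = ((D.pu2 (x, L z.1)).1 (1 * cs (j₀ z.2)),
      (D.pu2 (x, L z.1)).1 (cs (π / 4) * cs (j₁ z.2)), (D.pu2 (x, L z.1)).1 (cs (π / 2) * cs (j₂ z.2)),
      (D.pu2 (x, L z.1)).1 (cs (3 * π / 4) * cs (j₃ z.2)))) (z : ∀ v ∈ O, f v ∈ D.Sg → v = 0) :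
    Gen 32 (pull f O {0} (D.G4 Q)) := by
  obtain rfl := funext e
  obtain ⟨l, h1, k1⟩ := D.exists_lD Q (D.mem _ hx.1 1)
  obtain ⟨l', h2, k2⟩ := D.exists_lF Q hx.1
  have y : ∀ g : V × V × V × V →L[ℝ] V × V, g (x.1 1, x.1 (cs (π / 2)), x.1 1, x.1 (cs (π / 2))) = _ :=
    fun _ => rfl
  refine (((h1.pul p02 (y _) p02_mem fun _ _ => Iff.rfl).cp (h2.pul p01 (y _) p01_mem fun _ _ => Iff.rfl)
    fun _ _ => Iff.rfl).cp (h2.pul p03 (y _) p03_mem fun _ _ => Iff.rfl) fun _ _ => Iff.rfl).gen o m0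
    ((D.cont_pt hL _ _).prodMk ((D.cont_pt hL _ _).prodMk ((D.cont_pt hL _ _).prodMk
      (D.cont_pt hL _ _)))).continuousOn (fun v _ => ⟨(D.mem2 (hL _)).1 _, (D.mem2 (hL _)).1 _,
        (D.mem2 (hL _)).1 _, (D.mem2 (hL _)).1 _⟩)
    (by simp [D.zero2 x hx, cs_zero, db_apply, cs_q1, cs_q2, cs_q3])
    ((D.der_pt hx hL _ _).prodMk ((D.der_pt hx hL _ _).prodMk ((D.der_pt hx hL _ _).prodMk
      (D.der_pt hx hL _ _)))) ((injective_iff_map_eq_zero _).2 fun v k => ?_) (by simp [r]) z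
  have tv := D.tan _ hx.1
  have a1 := k1 (D.X2 x (L v.1) 1 + j₀ v.2 • (2 : ℝ) • D.vel x.1)
    (D.X2 x (L v.1) (cs (π / 2)) + j₂ v.2 • (2 : ℝ) • D.vel x.1)
    ⟨tv.1, by have := (D.tan2 x hx (L v.1) 1).2; rw [mul_one] at this; simp [this, tv.2]⟩
    ⟨tv.1, by have := (D.tan2 x hx (L v.1) (cs (π / 2))).2; rw [cs_q2] at this; simp [this, tv.2]⟩
    (by simpa [cs_q2, sh_one, p02] using congrArg (fun u => u.1.1) k)
  have a2 := k2 (D.X2 x (L v.1) 1 + (j₀ v.2 * 2) • D.vel x.1)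
    (D.X2 x (L v.1) (cs (π / 4)) + (j₁ v.2 * 2) • D.vel (sh (cs (π / 2)) x.1))
    (by simpa [cs_q1, sh_one, p01, mul_smul] using congrArg (fun u => u.1.2) k)
  have a3 := k2 (D.X2 x (L v.1) 1 + (j₀ v.2 * 2) • D.vel x.1)
    (D.X2 x (L v.1) (cs (3 * π / 4)) + (j₃ v.2 * 2) • D.vel (sh (cs (π / 2)) x.1))
    (by simpa [cs_q3, sh_one, p03, mul_smul] using congrArg (fun u => u.2) k)
  have b2 := D.tf_shift (hL v.1) cs_q1 a2
  have b3 := D.tf_shift (hL v.1) cs_q3 a3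
  simp only [mul_eq_zero, OfNat.ofNat_ne_zero, or_false] at b2 b3
  have c0 : j₀ v.2 = 0 := h0.elim (fun a => by simp [a]) fun a => b3.2 (by simp [a])
  have c2 : j₂ v.2 = 0 := by
    have n1 := D.nor2 x _ (hL v.1) 1
    have n2 := D.nor2 x _ (hL v.1) (cs (π / 2))
    rw [mul_one] at n1
    rw [cs_q2] at n2
    have g := D.gm_vel hx.1 1
    have := congrArg (D.gm (x.1 1) (D.vel (sh 1 x.1))) a1
    rw [map_add, map_add, n1, n2, sh_one] at this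
    rw [sh_one] at g
    simpa [c0, g.ne'] using this
  simp only [c0, c2, b2.1 c0, b3.1 c0, zero_mul, zero_smul, add_zero] at a1 a2 a3
  exact Prod.ext (i ((D.tr2 x _ (hL v.1) a1.symm a2 a3).trans (map_zero L).symm))
    (hj _ c0 (b2.1 c0) c2 (b3.1 c0))

/-- the local degree at a closed geodesic -/
theorem nd1 (hx : x ∈ D.S ×ˢ Sp m) {L : E →L[ℝ] RN D.N} (hL : ∀ w, D.K (x.1, x.2 * x.2) (L w) = L w)
    (i : Function.Injective L) (r : finrank ℝ E = 7) {O : Set (E × ℝ)} (o : IsOpen O) (m0 : 0 ∈ O)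
    {f : E × ℝ → V × V} (e : ∀ z, f z = ((D.pu1 ((x.1, x.2 * x.2), L z.1)).1 1,
      (D.pu1 ((x.1, x.2 * x.2), L z.1)).1 (cs (π / 2) * cs z.2))) (z : ∀ v ∈ O, f v ∈ D.F → v = 0) :
    Gen 8 (pull f O {0} (D.thF Q)) := by
  let L' : E →L[ℝ] FB D.N D.N' := L.prod 0
  have hL' : ∀ w, (x, L' w) ∈ tot2 D.S D.K D.P := fun w => ⟨hx, hL w, map_zero _, map_zero _, map_zero _⟩
  have e1 : ∀ w θ, (D.pu2 (x, L' w)).1 θ = (D.pu1 ((x.1, x.2 * x.2), L w)).1 (θ * θ) := fun w θ =>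
    congrArg (fun u : LS V => u.1 θ) (D.one x hx _ (hL w))
  obtain rfl : f = fun z : E × ℝ => ((D.pu2 (x, L' z.1)).1 (1 * cs ((0 : ℝ →L[ℝ] ℝ) z.2)),
      (D.pu2 (x, L' z.1)).1 (cs (π / 4) * cs (((1 / 2 : ℝ) • (1 : ℝ →L[ℝ] ℝ)) z.2))) := funext fun z => by
    rw [e, e1, e1, mul_mul_mul_comm (cs _), cs_q1, ← cs_add (_ : ℝ) (_ : ℝ), ← cs_add (_ : ℝ) (_ : ℝ),
      ← cs_add (_ : ℝ) (_ : ℝ)]
    simp [cs_zero]
    ring_nf
  obtain ⟨l, h2, k2⟩ := D.exists_lF Q hx.1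
  refine h2.gen o m0 ((D.cont_pt hL' _ _).prodMk (D.cont_pt hL' _ _)).continuousOn
    (fun v _ => ⟨(D.mem2 (hL' _)).1 _, (D.mem2 (hL' _)).1 _⟩)
    (by simp [D.zero2 x hx, cs_zero, db_apply, cs_q1, TD0.en])
    ((D.der_pt hx hL' _ _).prodMk (D.der_pt hx hL' _ _))
    ((injective_iff_map_eq_zero _).2 fun v k => ?_) (by simp [r]) z
  have a2 := k2 (D.X2 x (L' v.1) 1 + (0 : ℝ) • D.vel x.1)
    (D.X2 x (L' v.1) (cs (π / 4)) + v.2 • D.vel (sh (cs (π / 2)) x.1))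
    (by simpa [cs_q1, smul_smul, mul_right_comm _ v.2] using k)
  have c := (D.tf_shift (hL' v.1) cs_q1 a2).1 rfl
  have sy : ∀ θ η : Circle, θ * θ = η * η → D.X2 x (L' v.1) θ = D.X2 x (L' v.1) η := fun θ η h => by
    have d := fun θ => (ContinuousMap.evalCLM ℝ θ).hasFDerivAt.comp 0 (D.der_pu2 hx hL')
    exact ContinuousLinearMap.ext_iff.1 ((d θ).unique ((d η).congr_of_eventuallyEq (.of_forall fun w =>
      (e1 w θ).trans (h ▸ (e1 w η).symm)))) v.1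
  simp only [c, zero_smul, add_zero] at a2
  exact Prod.ext (i ((congrArg Prod.fst (D.tr2 x _ (hL' v.1) (sy _ _ (by rw [cs_q2, mul_one])) a2
    (sy _ _ (cs_q1.trans cs_q3.symm) ▸ a2))).trans (map_zero L).symm)) c

end TD

end Pool.Agent.Work.MP_8c604c_gt.OT
end
end

-- merged part: Pool.Agent.Work.MP_8c604c_gt.OD.L2
section
/-!
The local degrees on the fibres of the negative bundles (owner helper94).
-/

noncomputable section

set_option linter.unusedSectionVars false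

namespace Pool.Agent.Work.MP_8c604c_gt.OT

open Set Real Filter Topology Module Pool.Agent.Work.MP_849ab0_ag.G T

theorem LT.xq {X X' B B' : Type} [NormedAddCommGroup X] [NormedSpace ℝ X] [FiniteDimensional ℝ X]
    [NormedAddCommGroup X'] [NormedSpace ℝ X'] [FiniteDimensional ℝ X']
    [NormedAddCommGroup B] [NormedSpace ℝ B] [FiniteDimensional ℝ B]
    [NormedAddCommGroup B'] [NormedSpace ℝ B'] [FiniteDimensional ℝ B'] {N F : Set X} {N' F' : Set X'}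
    {y : X} {y' : X'} {l : X →L[ℝ] B} {l' : X' →L[ℝ] B'} {d d' : ℤ} {b : H N F} {b' : H N' F'}
    (h : LT d b y l) (h' : LT d' b' y' l') : LT (d + d') (xq (N ×ˢ N') (F ×ˢ F') b b') (y, y')
      ((l.comp (.fst ℝ X X')).prod (l'.comp (.snd ℝ X X'))) :=
  (h.pul (.fst ℝ X X') (y' := (y, y')) rfl (fun _ k => k.1) fun _ _ => Iff.rfl).cp
    (h'.pul (.snd ℝ X X') rfl (fun _ k => k.2) fun _ _ => Iff.rfl) fun _ _ => Iff.rfl

theorem Sp_sqrt {m : ℕ} {ζ : CM m} (h : ζ ∈ Sp m) : ∃ η ∈ Sp m, η * η = ζ := by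
  choose η k using fun i => IsAlgClosed.exists_eq_mul_self (ζ i)
  have e : η * η = ζ := funext fun i => (k i).symm
  refine ⟨η, ?_, e⟩
  have ne : η ≠ 0 := fun a => Sp_ne h (by rw [← e, a, mul_zero])
  have n := norm_pos_iff.2 ne
  have := mem_Sp.1 (Sp_sq (ζ := (‖η‖⁻¹ : ℝ) • η) (mem_Sp.2 (by
    rw [norm_smul, norm_inv, norm_norm, inv_mul_cancel₀ n.ne'])))
  rw [smul_mul_smul_comm, e, norm_smul, mem_Sp.1 h, mul_one, Real.norm_of_nonneg (by positivity),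
    ← mul_inv, inv_eq_one] at this
  exact mem_Sp.2 ((mul_self_eq_one_iff.1 this).resolve_right (by linarith))

variable {V : Type} [NormedAddCommGroup V] [InnerProductSpace ℝ V] [FiniteDimensional ℝ V]
  {𝕄 : Mf V} {m : ℕ} {E R : Type} [NormedAddCommGroup E] [NormedSpace ℝ E] [FiniteDimensional ℝ E]
  [NormedAddCommGroup R] [NormedSpace ℝ R] [FiniteDimensional ℝ R]

namespace TD

variable (D : TD 𝕄 m) (Q : MT 𝕄) {x : LM V × CM m}

theorem nd3 {L : E →L[ℝ] FB D.N D.N'} (hL : ∀ w, (x, L w) ∈ tot2 D.S D.K D.P) (i : Function.Injective L)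
    (r : finrank ℝ E + finrank ℝ R = 32) {j₀ j₁ j₂ j₃ : R →L[ℝ] ℝ} (h0 : j₀ = 0 ∨ j₃ = 0)
    (hj : ∀ ρ, j₀ ρ = 0 → j₁ ρ = 0 → j₂ ρ = 0 → j₃ ρ = 0 → ρ = 0) {O : Set (E × R)} (o : IsOpen O)
    (m0 : 0 ∈ O) {f : E × R → (V × V) × (V × V) × (V × V)} (e : ∀ z, f z =
      (((D.pu2 (x, L z.1)).1 (1 * cs (j₀ z.2)), (D.pu2 (x, L z.1)).1 (cs (π / 4) * cs (j₁ z.2))),
        ((D.pu2 (x, L z.1)).1 (1 * cs (j₀ z.2)), (D.pu2 (x, L z.1)).1 (cs (π / 2) * cs (j₂ z.2))),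
        ((D.pu2 (x, L z.1)).1 (cs (π / 2) * cs (j₂ z.2)), (D.pu2 (x, L z.1)).1 (cs (3 * π / 4) * cs (j₃ z.2)))))
    (z : ∀ v ∈ O, f v ∈ D.Z3 → v = 0) : Gen 32 (pull f O {0} (D.om3 Q)) := by
  obtain rfl := funext e
  have hx := (hL 0).1
  obtain ⟨l, h1, k1⟩ := D.exists_lD Q (D.mem _ hx.1 1)
  obtain ⟨l', h2, k2⟩ := D.exists_lF Q hx.1
  have c := fun θ (j : R →L[ℝ] ℝ) => D.cont_pt hL θ j
  have d := fun θ (j : R →L[ℝ] ℝ) => D.der_pt hx hL θ j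
  have mm := fun v θ => (D.mem2 (hL v)).1 θ
  refine (h2.xq (h1.xq h2)).gen o m0
    (((c _ _).prodMk (c _ _)).prodMk (((c _ _).prodMk (c _ _)).prodMk ((c _ _).prodMk (c _ _)))).continuousOn
    (fun v _ => ⟨⟨mm _ _, mm _ _⟩, ⟨mm _ _, mm _ _⟩, mm _ _, mm _ _⟩)
    (by simp [D.zero2 x hx, cs_zero, db_apply, cs_q1, cs_q2, cs_q3, TD0.en])
    (((d _ _).prodMk (d _ _)).prodMk (((d _ _).prodMk (d _ _)).prodMk ((d _ _).prodMk (d _ _))))
    ((injective_iff_map_eq_zero _).2 fun v k => ?_) (by simp [r]) z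
  have tv := D.tan _ hx.1
  have a1 := k1 (D.X2 x (L v.1) 1 + j₀ v.2 • (2 : ℝ) • D.vel x.1)
    (D.X2 x (L v.1) (cs (π / 2)) + j₂ v.2 • (2 : ℝ) • D.vel x.1)
    ⟨tv.1, by have := (D.tan2 x hx (L v.1) 1).2; rw [mul_one] at this; simp [this, tv.2]⟩
    ⟨tv.1, by have := (D.tan2 x hx (L v.1) (cs (π / 2))).2; rw [cs_q2] at this; simp [this, tv.2]⟩
    (by simpa [cs_q2, sh_one] using congrArg (fun u => u.2.1) k)
  have a2 := k2 (D.X2 x (L v.1) 1 + (j₀ v.2 * 2) • D.vel x.1)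
    (D.X2 x (L v.1) (cs (π / 4)) + (j₁ v.2 * 2) • D.vel (sh (cs (π / 2)) x.1))
    (by simpa [cs_q1, sh_one, mul_smul] using congrArg (fun u => u.1) k)
  have a3 := k2 (D.X2 x (L v.1) (cs (π / 2)) + j₂ v.2 • (2 : ℝ) • D.vel x.1)
    (D.X2 x (L v.1) (cs (3 * π / 4)) + (j₃ v.2 * 2) • D.vel (sh (cs (π / 2)) x.1))
    (by simpa [cs_q2, cs_q3, sh_one, mul_smul] using congrArg (fun u => u.2.2) k)
  rw [← a1, ← mul_smul] at a3
  have b2 := D.tf_shift (hL v.1) cs_q1 a2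
  have b3 := D.tf_shift (hL v.1) cs_q3 a3
  simp only [mul_eq_zero, OfNat.ofNat_ne_zero, or_false] at b2 b3
  have c0 : j₀ v.2 = 0 := h0.elim (fun a => by simp [a]) fun a => b3.2 (by simp [a])
  have c2 : j₂ v.2 = 0 := by
    have n1 := D.nor2 x _ (hL v.1) 1
    have n2 := D.nor2 x _ (hL v.1) (cs (π / 2))
    rw [mul_one] at n1
    rw [cs_q2] at n2
    have g := D.gm_vel hx.1 1
    have := congrArg (D.gm (x.1 1) (D.vel (sh 1 x.1))) a1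
    rw [map_add, map_add, n1, n2, sh_one] at this
    rw [sh_one] at g
    simpa [c0, g.ne'] using this
  simp only [c0, c2, b2.1 c0, b3.1 c0, zero_mul, zero_smul, add_zero] at a1 a2 a3
  exact Prod.ext (i ((D.tr2 x _ (hL v.1) a1.symm a2 a3).trans (map_zero L).symm))
    (hj _ c0 (b2.1 c0) c2 (b3.1 c0))

theorem pu2_zero {L : E →ₗ[ℝ] FB D.N D.N'} (hL : Function.Injective L)
    (hK : ∀ v, (x, L v) ∈ tot2 D.S D.K D.P) {v : E} (h : 2 ≤ (D.pu2 (x, L v)).2) : v = 0 :=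
  hL ((by_contra fun k => (D.lt2 _ (hK v) k).not_ge h : L v = 0).trans (map_zero L).symm)

theorem ok_pu2 {L : E →ₗ[ℝ] FB D.N D.N'} (hL : Function.Injective L)
    (hK : ∀ v, (x, L v) ∈ tot2 D.S D.K D.P) : Ok (fun v => D.pu2 (x, L v)) univ {0} D.Lam (Zr 2) :=
  .of_mem (.of_continuous (D.c2.comp_continuous
    (continuous_const.prodMk L.continuous_of_finiteDimensional) hK) _) (fun _ _ => D.mem2 (hK _))
    fun _ _ k => D.pu2_zero hL hK k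

theorem gen_three {L : E →ₗ[ℝ] FB D.N D.N'} (hL : Function.Injective L)
    (hK : ∀ v, (x, L v) ∈ tot2 D.S D.K D.P) {ev : LS V × T3 → (V × V) × (V × V) × (V × V)}
    (o : Ok ev (D.Lam ×ˢ univ) (ev ⁻¹' D.Z3) (𝕄.MM ×ˢ 𝕄.MM ×ˢ 𝕄.MM) D.Z3)
    (j : JOK D.Lam univ (ev ⁻¹' D.Z3) Rg3 (Zr 2)) (le : ∀ z : LS V × T3, z.1 ∈ D.Lam → z ∈ ev ⁻¹' D.Z3 →
      z.2 ∈ Rg3 → z.1.2 = 2 ∧ z.2 = (cs (π / 4), cs (π / 2), cs (3 * π / 4)))
    (g : ∀ O : Set (E × ℝ × ℝ × ℝ), IsOpen O → 0 ∈ O → (∀ z ∈ O, ev (D.pu2 (x, L z.1), cs (π / 4) * cs z.2.1,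
      cs (π / 2) * cs z.2.2.1, cs (3 * π / 4) * cs z.2.2.2) ∈ D.Z3 → z = 0) →
      Gen 32 (pull (fun z => ev (D.pu2 (x, L z.1), cs (π / 4) * cs z.2.1, cs (π / 2) * cs z.2.2.1,
        cs (3 * π / 4) * cs z.2.2.2)) O {0} (D.om3 Q))) :
    Gen 29 (pull (fun v => D.pu2 (x, L v)) univ {0} (JJ 3 w3 D.Lam (Zr 2) Rg3
      (pull ev (D.Lam ×ˢ univ) (ev ⁻¹' D.Z3) (D.om3 Q)))) := by
  have hp := pi_pos
  have a1 : ang (cs (π / 4)) = π / 4 := ang_cs ⟨by linarith, by linarith⟩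
  have a2 : ang (cs (π / 2)) = π / 2 := ang_cs ⟨by linarith, by linarith⟩
  have a3 : ang (cs (3 * π / 4)) = 3 * π / 4 := ang_cs ⟨by linarith, by linarith⟩
  have ne : ∀ {a b : Circle}, ang a ≠ ang b → a ≠ b := fun h e => h (congrArg ang e)
  refine gen_JJ j top_w3 (ptG_w3 (cs (π / 4), cs (π / 2), cs (3 * π / 4))) (D.ok_pu2 hL hK)
    ((cE (cs (π / 4))).prod ((cE (cs (π / 2))).prod (cE (cs (3 * π / 4)))))
    ⟨cE_src _, cE_src _, cE_src _⟩ (Prod.ext (cE_zero _) (Prod.ext (cE_zero _) (cE_zero _))) (ev_in (nf_Rg3 (ne ?_) (ne ?_) (ne ?_) (ne ?_)) ⟨?_, ?_⟩)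
    (fun v τ k r => (le (_, τ) (D.mem2 (hK v)) k r).imp_left fun a => D.pu2_zero hL hK a.ge)
    fun O o1 o2 o3 => ?_
  iterate 6
    simp only [mem_setOf_eq, a1, a2, a3, ang_one]
    first | linarith | exact ne_of_gt (by linarith) | exact ne_of_lt (by linarith)
  rw [pull_pull o3 o]
  exact g O o1 o2 fun _ => o3.mem

theorem ld2 (hB : finrank ℝ E = 29) {L : E →ₗ[ℝ] FB D.N D.N'}
    (hL : Function.Injective L) (hK : ∀ v, (x, L v) ∈ tot2 D.S D.K D.P) :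
    Gen 29 (pull (fun v => D.pu2 (x, L v)) univ {0} (D.dl3 Q)) :=
  D.gen_three Q hL hK D.ok_e3 D.jok3 (fun _ => D.e3_le) fun _ o1 o2 o3 =>
    D.nd3 Q (L := L.toContinuousLinearMap) hK hL (by simp [hB]) (j₀ := 0) (j₁ := .fst ℝ _ _)
      (j₂ := (ContinuousLinearMap.fst ℝ ℝ ℝ).comp (.snd ℝ ℝ _))
      (j₃ := (ContinuousLinearMap.snd ℝ ℝ ℝ).comp (.snd ℝ ℝ _)) (.inl rfl)
      (fun _ _ a b c => Prod.ext a (Prod.ext b c)) o1 o2 (fun z => by simp [e3, cs_zero]) o3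

theorem ld4 (hB : finrank ℝ E = 29) {L : E →ₗ[ℝ] FB D.N D.N'}
    (hL : Function.Injective L) (hK : ∀ v, (x, L v) ∈ tot2 D.S D.K D.P) :
    Gen 29 (pull (fun v => D.pu2 (x, L v)) univ {0} (D.dl4 Q)) := by
  obtain ⟨θ, hθ⟩ : ∃ θ, θ = cs (π / 4) := ⟨_, rfl⟩
  let ρ : (RN D.N × RN D.N) →ₗ[ℝ] RN D.N × RN D.N :=
    LinearMap.prod ((θ : ℂ).re • LinearMap.fst ℝ _ _ - (θ : ℂ).im • LinearMap.snd ℝ _ _)
      ((θ : ℂ).im • LinearMap.fst ℝ _ _ + (θ : ℂ).re • LinearMap.snd ℝ _ _)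
  let L' : E →ₗ[ℝ] FB D.N D.N' := LinearMap.id.prodMap (ρ.prodMap .id) ∘ₗ L
  have hx := (hK 0).1
  have kk : D.K (sh (θ * θ) x.1, ((θ : ℂ) • x.2) * ((θ : ℂ) • x.2)) = D.K (x.1, x.2 * x.2) := by
    rw [← D.invK (θ * θ) (x.1, x.2 * x.2) ⟨hx.1, Sp_sq hx.2⟩, smul_mul_smul_comm, Circle.coe_mul]
  have hK' : ∀ v, ((sh (θ * θ) x.1, (θ : ℂ) • x.2), L' v) ∈ tot2 D.S D.K D.P := fun v => by
    obtain ⟨-, h1, h2, h3, h4⟩ := hK v
    refine ⟨⟨D.inv _ _ hx.1, (Sp_smul θ).2 hx.2⟩, kk ▸ h1, ?_, ?_, (D.invP θ x hx).symm ▸ h4⟩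
    · rw [kk]
      exact (map_sub _ _ _).trans (congrArg₂ _ ((map_smul _ _ _).trans (congrArg _ h2))
        ((map_smul _ _ _).trans (congrArg _ h3)))
    · rw [kk]
      exact (map_add _ _ _).trans (congrArg₂ _ ((map_smul _ _ _).trans (congrArg _ h2))
        ((map_smul _ _ _).trans (congrArg _ h3)))
  have hL' : Function.Injective L' := (injective_iff_map_eq_zero _).2 fun v k => hL (by
    have k1 : (θ : ℂ).re • (L v).2.1.1 - (θ : ℂ).im • (L v).2.1.2 = 0 := congrArg (·.2.1.1) k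
    have k2 : (θ : ℂ).im • (L v).2.1.1 + (θ : ℂ).re • (L v).2.1.2 = 0 := congrArg (·.2.1.2) k
    have n : (θ : ℂ).re * (θ : ℂ).re + (θ : ℂ).im * (θ : ℂ).im = 1 := θ.normSq_coe
    rw [map_zero]
    refine Prod.ext (congrArg (·.1) k) (Prod.ext (Prod.ext (show _ = 0 from ?_) (show _ = 0 from ?_))
      (congrArg (·.2.2) k))
    · linear_combination (norm := module) (θ : ℂ).re • k1 + (θ : ℂ).im • k2 - n • (L v).2.1.1
    · linear_combination (norm := module) (θ : ℂ).re • k2 - (θ : ℂ).im • k1 - n • (L v).2.1.2)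
  have e : ∀ v η, (D.pu2 ((sh (θ * θ) x.1, (θ : ℂ) • x.2), L' v)).1 η = (D.pu2 (x, L v)).1 (θ * η) :=
    fun v η => congrArg (fun u : LS V => u.1 η) (D.eq2 θ _ (hK v))
  refine D.gen_three Q hL hK D.ok_e4 D.jok4 (fun _ => D.e4_le) fun _ o1 o2 o3 =>
    D.nd3 Q (L := L'.toContinuousLinearMap) hK' hL' (by simp [hB]) (j₃ := 0) (j₀ := .fst ℝ _ _)
      (j₁ := (ContinuousLinearMap.fst ℝ ℝ ℝ).comp (.snd ℝ ℝ _))
      (j₂ := (ContinuousLinearMap.snd ℝ ℝ ℝ).comp (.snd ℝ ℝ _)) (.inr rfl)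
      (fun _ a b c _ => Prod.ext a (Prod.ext b c)) o1 o2 (fun z => ?_) o3
  have q1 : θ * cs (π / 2) = cs (3 * π / 4) := by rw [hθ, ← cs_add]; ring_nf
  have q2 : θ * cs (3 * π / 4) = 1 := by rw [hθ, ← cs_add, ← cs_pi]; ring_nf
  have q3 : θ * cs (π / 4) = cs (π / 2) := hθ ▸ cs_q1
  simp only [LinearMap.coe_toContinuousLinearMap', e, ← mul_assoc, q1, q2, q3]
  simp [e4, cs_zero, hθ]

theorem pu1_zero {L : E →ₗ[ℝ] RN D.N} (hx : x ∈ D.S ×ˢ Sp m) (hL : Function.Injective L)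
    (hK : ∀ v, D.K x (L v) = L v) {v : E} (h : 1 ≤ (D.pu1 (x, L v)).2) : v = 0 :=
  hL ((by_contra fun k => (D.lt1 (x, L v) ⟨hx, hK v⟩ k).not_ge h : L v = 0).trans (map_zero L).symm)

theorem nd1' (hx : x ∈ D.S ×ˢ Sp m) (hB : finrank ℝ E = 7) {L : E →ₗ[ℝ] RN D.N}
    (hL : Function.Injective L) (hK : ∀ v, D.K x (L v) = L v) {O : Set (E × ℝ)} (o : IsOpen O) (m0 : 0 ∈ O)
    (z : ∀ v ∈ O, e1 (D.pu1 (x, L v.1), cs (π / 2) * cs v.2) ∈ D.F → v = 0) :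
    Gen 8 (pull (fun v => e1 (D.pu1 (x, L v.1), cs (π / 2) * cs v.2)) O {0} (D.thF Q)) := by
  obtain ⟨c, ζ⟩ := x
  obtain ⟨η, h, rfl⟩ := Sp_sqrt hx.2
  exact D.nd1 Q (x := (c, η)) (L := L.toContinuousLinearMap) ⟨hx.1, h⟩ hK hL hB o m0 (fun _ => rfl) z

theorem ld1 (hx : x ∈ D.S ×ˢ Sp m) (hB : finrank ℝ E = 7) {L : E →ₗ[ℝ] RN D.N}
    (hL : Function.Injective L) (hK : ∀ v, D.K x (L v) = L v) :
    Gen 7 (pull (fun v => D.pu1 (x, L v)) univ {0} (D.dl1 Q)) := by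
  have j : JOK D.Lam univ (e1 ⁻¹' D.F) univ (Zr 1) := ⟨by simp, fun z h k _ => D.sub_e1 z h k⟩
  have c : Continuous fun v => D.pu1 (x, L v) :=
    D.c1.comp_continuous (continuous_const.prodMk L.continuous_of_finiteDimensional) fun v => ⟨hx, hK v⟩
  have mm : ∀ v, D.pu1 (x, L v) ∈ D.Lam := fun v => D.mem1 ⟨hx, hK v⟩
  rw [TD1.dl1, ← j.all fun _ _ _ => trivial]
  refine gen_JJ j top_dt (ptG_dt _) (.of_mem (.of_continuous c _) (fun _ _ => mm _)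
    fun _ _ k => D.pu1_zero hx hL hK k) (cE _) (cE_src _) (cE_zero (cs (π / 2))) univ_mem (fun v τ k _ => ?_)
    fun O o1 o2 o3 => ?_
  · obtain rfl := D.pu1_zero hx hL hK (TD1.lam_F (mm v) k)
    rw [map_zero, D.zero1 x hx] at k
    exact ⟨rfl, (D.cut_iff hx.1).1 k⟩
  · rw [pull_pull o3 D.ok_e1]
    exact D.nd1' Q hx hB hL hK o1 o2 fun _ => o3.mem

end TD

end Pool.Agent.Work.MP_8c604c_gt.OT
end
end
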