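import Pool.Agent.Work.MP_8c604c_gt.OD.L2
import Pool.Agent.Work.MP_8c604c_gt.OZ.S6

/-!
The local degree on the total space of the first negative bundle (owner helper94).
-/

noncomputable section

set_option linter.unusedSectionVars false

namespace Pool.Agent.Work.MP_8c604c_gt.OT

open Set Real Filter Topology Module Pool.Agent.Work.MP_849ab0_ag.G T

variable {V : Type} [NormedAddCommGroup V] [InnerProductSpace ℝ V] [FiniteDimensional ℝ V]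
  {𝕄 : Mf V} {m : ℕ}

/-- the base point and one more point -/
def ev1 (z : LM V × Circle) : V × V := (z.1 1, z.1 z.2)

/-- the second half of the circle -/
def Upc : Set Circle := {θ | π / 2 < ang θ}

theorem continuous_ev1 : Continuous (ev1 : LM V × Circle → _) := by unfold ev1; fun_prop

theorem isOpen_Upc : IsOpen Upc := isOpen_iff_mem_nhds.2 fun θ h =>
  (continuousAt_ang fun e => by
    rw [e, Upc, mem_setOf_eq, ang_one] at h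
    linarith [pi_pos]).eventually (lt_mem_nhds h)

theorem ang_half : ang (cs (π / 2)) = π / 2 := ang_cs ⟨by linarith [pi_pos], by linarith [pi_pos]⟩

theorem reg_Upc {t : Circle} (h : t ≠ cs (π / 2)) : (t * cs (π / 2), t) ∈ Rg2 ↔ t ∈ Upc := by
  have h1 := ang_mem (t * cs (π / 2))
  have h2 : ang t ≠ π / 2 := fun e => h (ang_inj (e.trans ang_half.symm))
  have := ang_mul t (cs (π / 2))
  rw [ang_half] at this
  change ang _ < ang t ↔ π / 2 < ang t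
  rcases this with e | e <;> rw [e] at h1 ⊢
  · exact iff_of_false (by linarith [pi_pos]) (by linarith [h1.2])
  · exact iff_of_true (by linarith [pi_pos]) (lt_of_le_of_ne (by linarith [h1.1]) h2.symm)

namespace TD1

variable (D : TD1 𝕄) (Q : MT 𝕄) {p q : V} {c : LM V} {t : Circle} {y : V × V}

/-- the geodesic from `y.2` to `y.1`, based at `y.1`, and the time of `y.2` -/
def iv (y : V × V) : LM V × Circle := (sh (cs (D.lt y.swap)) (D.lc y.swap), cs (π - D.lt y.swap))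

theorem swap_nb (h : y ∈ D.Nb \ Dg V) : y.swap ∈ D.Nb \ Dg V :=
  ⟨⟨⟨h.1.1.2, h.1.1.1⟩, fun k => h.1.2 (D.swap_F k)⟩, fun k => h.2 k.symm⟩

theorem iv_spec (h : y ∈ D.Nb \ Dg V) : D.iv y ∈ D.S ×ˢ Upc ∧ ev1 (D.iv y) = y := by
  obtain ⟨h1, h2, h3, h4⟩ := D.lc_spec ⟨(D.swap_nb h).1.1, (D.swap_nb h).2⟩
  have h5 := (D.lt_lt (D.swap_nb h).1).2
  refine ⟨⟨D.inv _ _ h1, ?_⟩, Prod.ext ((sh_at_one _ _).trans h4) ?_⟩
  · change _ < ang (cs _)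
    rw [ang_cs ⟨by linarith [pi_pos], by linarith [h3.1]⟩]
    linarith
  · change sh _ _ (cs _) = _
    rw [sh_cs, add_sub_cancel, cs_pi, h2]
    rfl

theorem ev1_spec {z : LM V × Circle} (h : z ∈ D.S ×ˢ Upc) : ev1 z ∈ D.Nb \ Dg V ∧ D.iv (ev1 z) = z := by
  obtain ⟨c, t⟩ := z
  have h1 : π - ang t ∈ Ioo 0 (π / 2) := ⟨by linarith [(ang_mem t).2], by linarith [show π / 2 < ang t from h.2]⟩
  have h2 := D.inv t c h.1
  have e1 : t * cs (π - ang t) = 1 := by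
    nth_rw 1 [← cs_ang t]
    rw [← cs_add, add_sub_cancel, cs_pi]
  have e : (ev1 (c, t)).swap = (sh t c 1, sh t c (cs (π - ang t))) := by
    rw [sh_at_one, sh_apply, e1]
    rfl
  refine ⟨D.swap_nb (y := (ev1 (c, t)).swap) (e ▸ ⟨?_, (D.od_mem h2 ⟨h1.1, h1.2.le⟩).2⟩), ?_⟩
  · have := D.not_cut h2 (s := 0) (t := π - ang t) (by rw [sub_zero, abs_of_pos h1.1]; exact h1.2)
    rwa [cs_zero] at this
  · rw [iv, e, D.lt_eq h2 ⟨h1.1.le, h1.2.le⟩, D.lc_eq h2 h1, sub_sub_cancel, cs_ang, ← sh_mul, mul_comm, e1, sh_one]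

theorem zb_ev1 (ht : t ∈ Upc) : ZB ev1 (D.S ×ˢ Upc) (univ ×ˢ {t}) 𝕄.MM (ev1 '' (D.S ×ˢ {t})) := by
  have c1 := continuous_cs
  have c2 : ContinuousOn (fun y : V × V => D.lt y.swap) (D.Nb \ Dg V) :=
    D.cont_lt.comp continuous_swap.continuousOn fun _ h => (D.swap_nb h).1.1
  have sub : ∀ y ∈ ev1 '' (D.S ×ˢ {t}), y ∈ D.Nb \ Dg V := by
    rintro _ ⟨z, h, rfl⟩
    exact (D.ev1_spec ⟨h.1, h.2 ▸ ht⟩).1
  refine (ZB.of_inv (U := D.S ×ˢ Upc) (Z := univ ×ˢ {t}) (U' := D.Nb \ Dg V) (Z' := ev1 '' (D.S ×ˢ {t}))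
    (s := D.iv) (.of_mem (.of_continuous continuous_ev1 _) (fun _ h => (D.ev1_spec h).1) ?_)
    (ok_of (D.lc_Nb.inter isClosed_Dg'.isOpen_compl.isLocallyClosed) ((continuous_sh.comp_continuousOn
      ((c1.comp_continuousOn c2).prodMk (D.cont_lc.comp continuous_swap.continuousOn fun _ => D.swap_nb))).prodMk
      (c1.comp_continuousOn (continuousOn_const.sub c2))) (fun _ h => (D.iv_spec h).1)
      fun y h k => ⟨_, ⟨(D.iv_spec h).1.1, k.2⟩, (D.iv_spec h).2⟩) (fun _ h => (D.ev1_spec h).2)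
    fun _ h => (D.iv_spec h).2).comp (.excision (fun _ h => h.1.1) (.of_isClosed
      ((D.cpt.prod isCompact_singleton).image continuous_ev1).isClosed _) (fun y _ k => ?_)
      fun _ _ => Iff.rfl) fun _ _ => rfl
  · rintro z h ⟨w, k, e⟩
    rw [← (D.ev1_spec h).2, ← e, (D.ev1_spec ⟨k.1, k.2 ▸ ht⟩).2]
    exact ⟨trivial, k.2⟩
  · exact mem_of_superset (inter_mem_nhdsWithin _ ((D.isClosed_F.union isClosed_Dg').isOpen_compl.mem_nhds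
      fun a => a.elim (sub y k).1.2 (sub y k).2)) fun _ a => ⟨⟨a.1, fun b => a.2 (.inl b)⟩, fun b => a.2 (.inr b)⟩

/-- the class of the point `(p, q)` -/
def _root_.Pool.Agent.Work.MP_8c604c_gt.OT.MT.pt2 (Q : MT 𝕄) (p q : V) : H 𝕄.MM ({p} ×ˢ {q}) :=
  xq _ _ (Q.pt p) (Q.pt q)

theorem cut_ev1 (h : (p, q) ∈ D.Nb \ Dg V) : CutOK (univ ×ˢ Upc) (D.S ×ˢ univ) (ev1 ⁻¹' {p} ×ˢ {q})
    (univ ×ˢ {(D.iv (p, q)).2}) where
  nf z hz k := by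
    have e : ev1 z = (p, q) := Prod.ext k.1 k.2
    rw [univ_prod]
    refine nf_lt continuousAt_const ((continuousAt_ang fun a => h.2 ?_).comp continuousAt_snd) fun a => h.1.2 ?_
    · rw [← e]
      exact congrArg z.1 a.symm
    · exact e ▸ (D.cut_iff hz.1).2 (ang_inj (a.symm.trans ang_half.symm))
  sub z hz k r := ⟨trivial, by rw [← show ev1 z = (p, q) from Prod.ext k.1 k.2, (D.ev1_spec ⟨hz.1, r.2⟩).2]; rfl⟩

theorem ok_ev1 {A : Set Circle} {W : Set (LM V × Circle)} {Z : Set (V × V)}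
    (h : ∀ z ∈ D.S ×ˢ A, ev1 z ∈ Z → z ∈ W) : Ok ev1 (D.S ×ˢ A) W 𝕄.MM Z :=
  .of_mem (.of_continuous continuous_ev1 _) (fun _ k => ⟨D.mem _ k.1 _, D.mem _ k.1 _⟩) h

theorem gen_cut (h : (p, q) ∈ D.Nb \ Dg V) : Gen 32 (cutH (univ ×ˢ Upc) (D.S ×ˢ univ)
    (univ ×ˢ {(D.iv (p, q)).2}) (pull ev1 (D.S ×ˢ univ) (ev1 ⁻¹' {p} ×ˢ {q}) (Q.pt2 p q))) := by
  have c := D.cut_ev1 h
  obtain ⟨⟨h1, h2⟩, h3⟩ := D.iv_spec h
  set t := (D.iv (p, q)).2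
  have hp := D.gen_pt Q h.1.1.1
  have hq := D.gen_pt Q h.1.1.2
  have z : ZB id (D.S ×ˢ Upc) (univ ×ˢ {t}) (D.S ×ˢ univ) (univ ×ˢ {t}) :=
    .excision (prod_mono_right (subset_univ _)) (cl_prod (.univ _) _ _) (fun x _ k => mem_of_superset
      (inter_mem_nhdsWithin _ (continuous_snd.continuousAt (isOpen_Upc.mem_nhds (k.2 ▸ h2))))
      fun _ a => ⟨a.1.1, a.2⟩) fun _ _ => Iff.rfl
  have o : Ok id (D.S ×ˢ Upc) (univ ×ˢ {t}) (D.S ×ˢ univ) (ev1 ⁻¹' {p} ×ˢ {q}) :=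
    .of_mem z.ok.ext z.ok.maps fun x a k => c.sub x ⟨a.1, trivial⟩ k ⟨trivial, a.2⟩
  have o' : Ok id 𝕄.MM (ev1 '' (D.S ×ˢ {t})) 𝕄.MM ({p} ×ˢ {q}) :=
    .id subset_rfl fun y _ k => ⟨_, ⟨h1, rfl⟩, h3.trans (Prod.ext k.1.symm k.2.symm)⟩
  obtain ⟨ϖ, -, k, -⟩ := (ptW_dt t).ex
  obtain ⟨g, hg, -⟩ := ((k.gen (.univ _) (D.gen_sS Q)).pul z).exists_pul (D.zb_ev1 h2)
  refine Gen.of_pul ?_ z
  rw [c.pul (O' := univ) (Z' := univ ×ˢ {t}) ⟨by simp, fun _ _ k _ => k⟩ o z.ok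
    fun _ h _ => iff_of_true trivial ⟨trivial, h.2⟩, CutOK.all (O := univ) ⟨by simp, fun _ _ k _ => k⟩
    fun _ _ _ => trivial, pull_id, pull_pull' (F := ev1) o (D.ok_ev1 fun _ _ k => k) fun _ _ => rfl,
    ← pull_pull' (F := ev1) (D.zb_ev1 h2).ok o' fun _ _ => rfl]
  refine (gen_of_map (f := id) (O := 𝕄.MM) (W := univ) hg ((isZ_xq hp.isZ hq.isZ).pul _ _ _)
    ((isDeg_xq (p := 16) (q := 16) hp.deg hq.deg).pull _ _ _) ?_).pul (D.zb_ev1 h2)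
  rw [res_pull (W₁ := univ) o' subset_rfl fun _ _ _ => trivial, pull_xq (E := 𝕄.MM) (B := univ) (B₁ := univ) (B₂ := univ)
    subset_rfl (fun _ _ a b => mk_mem_prod a b) (ok_fgt subset_rfl) (fun _ _ _ => trivial)
    (fun _ _ _ => trivial) fun _ _ _ _ => trivial]
  have := D.gen_uv Q
  rwa [MT.uu, MT.vv, ← pull_pow ok_MM1, ← pull_pow ok_MM2, ← D.fgt_pt Q h.1.1.1, pull_res ok_MM1 subset_rfl
    fun _ _ _ => trivial, D.fgt_pt Q h.1.1.1, ← D.fgt_pt Q h.1.1.2, pull_res ok_MM2 subset_rfl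
    fun _ _ _ => trivial] at this

theorem pull_om2 {X : Type} [TopologicalSpace X] {E A B₁ B₂ : Set X} {G : X → V × (V × V) × V}
    (o : Ok G E A (𝕄.M ×ˢ 𝕄.MM ×ˢ 𝕄.M) (D.Z2 p q)) (h1 : ∀ x ∈ E, (G x).1 = p → (G x).2.2 = q → x ∈ B₁)
    (h2 : ∀ x ∈ E, (G x).2.1 ∈ D.F → x ∈ B₂) (h : ∀ x ∈ E, x ∈ B₁ → x ∈ B₂ → x ∈ A) :
    pull G E A (D.om2 Q p q) = cup E A (pull (fun x => ((G x).1, (G x).2.2)) E B₁ (Q.pt2 p q))
      (pull (fun x => (G x).2.1) E B₂ (D.thF Q)) := by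
  have x2 : Ext (fun x => (G x).2) E := (Ext.of_continuous continuous_snd univ).comp o.ext (mapsTo_univ _ _)
  have x1 : Ext (fun x => (G x).1) E := (Ext.of_continuous continuous_fst univ).comp o.ext (mapsTo_univ _ _)
  have x3 : Ext (fun x => (G x).2.2) E := (Ext.of_continuous continuous_snd univ).comp x2 (mapsTo_univ _ _)
  rw [om2, pull_xq (A := D.Z2 p q) (B₁ := {x | (G x).1 = p}) (B₂ := B₂ ∩ {x | (G x).2.2 = q}) subset_rfl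
    (fun _ _ a b => mk_mem_prod a b) o (fun _ _ k => k) (fun x a k => ⟨h2 x a k.1, k.2⟩)
    fun x a u v => h x a (h1 x a u v.2) v.1,
    pull_xq (B := B₂ ∩ {x | (G x).2.2 = q}) (B₁ := B₂) (B₂ := {x | (G x).2.2 = q}) subset_rfl
      (fun _ _ a b => mk_mem_prod a b) (.of_mem x2 (fun _ a => (o.maps a).2) fun x a k => ⟨h2 x a k.1, k.2⟩)
      h2 (fun _ _ k => k) fun _ _ u v => ⟨u, v⟩,
    MT.pt2, pull_xq (E := 𝕄.MM) (B := B₁) (B₁ := {x | (G x).1 = p}) (B₂ := {x | (G x).2.2 = q}) subset_rfl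
      (fun _ _ a b => mk_mem_prod a b) (.of_mem (x1.prodMk x3) (fun _ a => ⟨(o.maps a).1, (o.maps a).2.2⟩)
        fun x a k => h1 x a k.1 k.2) (fun _ _ k => k) (fun _ _ k => k) h1,
    ← cup_comm_even (p := 4) (Z := B₂ ∩ {x | (G x).2.2 = q}) (cupOK fun _ _ u v => ⟨u, v⟩) ((D.isDeg_thF Q).pull _ _ _),
    cup_assoc (V' := E) (W' := B₂ ∩ {x | (G x).2.2 = q}) (cupOK h1) (cupOK h) (cupOK fun _ _ u v => ⟨v, u⟩)
      (cupOK fun x a u v => h x a (h1 x a u v.2) v.1)]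

end TD1

namespace TD

variable (D : TD 𝕄 m) (Q : MT 𝕄) {ζ : CM m} {z : LM V × RN D.N} {p q : V}

/-- the first negative bundle over the closed geodesics -/
abbrev TKz (ζ : CM m) : Set (LM V × RN D.N) := totR (fun c => D.K (c, ζ)) D.S

/-- the push -/
def fK (ζ : CM m) (z : LM V × RN D.N) : LS V := D.pu1 ((z.1, ζ), z.2)

variable (hζ : ζ ∈ Sp m)
include hζ

theorem rb_K : RB (fun c => D.K (c, ζ)) 7 D.S :=
  ⟨D.lc_S, D.cK.comp (by fun_prop) fun _ h => ⟨h, hζ⟩, fun _ h => D.idK _ ⟨h, hζ⟩, fun _ h => D.rkK _ ⟨h, hζ⟩⟩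

theorem fK_mem (h : z ∈ D.TKz ζ) : D.fK ζ z ∈ D.Lam := D.mem1 ⟨⟨h.1, hζ⟩, h.2⟩

theorem ok_fK : Ok (D.fK ζ) (D.TKz ζ) (zs _ _) D.Lam (Zr 1) :=
  ok_of (D.rb_K hζ).lc_tot (D.c1.comp (by fun_prop) fun _ h => ⟨⟨h.1, hζ⟩, h.2⟩) (fun _ => D.fK_mem hζ)
    fun z h k => by_contra fun a => (D.lt1 ((z.1, ζ), z.2) ⟨⟨h.1, hζ⟩, h.2⟩ a).not_ge k

theorem fK_zero (h : z ∈ D.TKz ζ) (e : z.2 = 0) : (D.fK ζ z).1 = z.1 := by
  rw [fK, e, D.zero1 _ ⟨h.1, hζ⟩]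

theorem fK_F (h : z ∈ D.TKz ζ) {a b : Circle} (k : ((D.fK ζ z).1 a, (D.fK ζ z).1 b) ∈ D.F) :
    z.2 = 0 ∧ b = a * cs (π / 2) := by
  have e : z.2 = 0 := (D.ok_fK hζ).mem h (TD1.lam_F (D.fK_mem hζ h) k)
  rw [D.fK_zero hζ h e] at k
  refine ⟨e, inv_mul_eq_iff_eq_mul.1 ((D.cut_iff (D.inv a _ h.1)).1 ?_)⟩
  rwa [sh_at_one, sh_apply, mul_inv_cancel_left]

theorem ext_fK {X : Type} [TopologicalSpace X] [RegularSpace X] [SecondCountableTopology X] {a : X → Circle}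
    (ha : Continuous a) : Ext (fun w : (LM V × RN D.N) × X => (D.fK ζ w.1).1 (a w.2)) (D.TKz ζ ×ˢ univ) :=
  (Ext.of_continuous (f := fun u : LS V × X => u.1.1 (a u.2)) (by fun_prop) univ).comp
    ((D.ok_fK hζ).ext.prodMap (.of_continuous continuous_id _)) (mapsTo_univ _ _)

theorem ok_th (a : Circle) : Ok (fun w => ((D.fK ζ w.1).1 a, (D.fK ζ w.1).1 w.2)) (D.TKz ζ ×ˢ univ)
    (zs _ _ ×ˢ {a * cs (π / 2)}) 𝕄.MM D.F :=
  .of_mem ((D.ext_fK hζ continuous_const).prodMk (D.ext_fK hζ continuous_id))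
    (fun _ h => ⟨(D.fK_mem hζ h.1).1 _, (D.fK_mem hζ h.1).1 _⟩) fun _ h => D.fK_F hζ h.1

theorem gen_th (a : Circle) : Gen 39 (cup (D.TKz ζ ×ˢ univ) (zs _ _ ×ˢ {a * cs (π / 2)})
    (pull (fun w => w.1.1) (D.TKz ζ ×ˢ univ) univ (D.sS Q))
    (pull (fun w => ((D.fK ζ w.1).1 a, (D.fK ζ w.1).1 w.2)) (D.TKz ζ ×ˢ univ) (zs _ _ ×ˢ {a * cs (π / 2)})
      (D.thF Q))) := by
  have rb := D.rb_K hζ
  obtain ⟨o, ho⟩ := rb.exists_ori (D.sgnTriv_S Q)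
  have th := rb.thZ ho (by norm_num)
  obtain ⟨ϖ, -, k, -⟩ := (ptW_dt (a * cs (π / 2))).ex
  have cl : Cl (D.TKz ζ) (zs _ _) := .of_isClosed isClosed_zsR _
  obtain ⟨c, hc⟩ := (D.isConnected_S Q.conn).nonempty
  obtain ⟨L, i, mL, -⟩ := Sg_fr rb hc
  have o1 := ok_fibR (V := fun c => D.K (c, ζ)) hc i mL
  have o2 : Ok (Prod.map (fun v => (c, L v)) id) (univ ×ˢ univ) ({0} ×ˢ {a * cs (π / 2)}) (D.TKz ζ ×ˢ univ)
      (zs _ _ ×ˢ {a * cs (π / 2)}) := .of_mem (o1.ext.prodMap (.of_continuous continuous_id _))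
    (fun _ h => ⟨o1.maps h.1, trivial⟩) fun _ h k => ⟨o1.mem h.1 k.1, k.2⟩
  have zc : ZB (Prod.map id (cE (a * cs (π / 2)))) (univ ×ˢ (cE (a * cs (π / 2))).source) {0} (univ ×ˢ univ)
      (({0} : Set (Fin 7 → ℝ)) ×ˢ {a * cs (π / 2)}) :=
    zb_chart' ((OpenPartialHomeomorph.refl _).prod (cE _)) (isOpen_univ.prod (cE _).open_source) subset_rfl
      ⟨trivial, cE_src _⟩ univ_prod_univ (singleton_prod_singleton.trans (congrArg (fun θ => {(0, θ)}) (cE_zero _).symm))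
  have e : ∀ v η, (D.pu1 ((sh a c, (a : ℂ) • ζ), L v)).1 η = (D.pu1 ((c, ζ), L v)).1 (a * η) :=
    fun v η => congrArg (fun u : LS V => u.1 η) (D.eq1 a ((c, ζ), L v) ⟨⟨hc, hζ⟩, mL v⟩)
  have e' : ∀ v : (Fin 7 → ℝ) × ℝ, ((D.fK ζ (c, L v.1)).1 a, (D.fK ζ (c, L v.1)).1 (a * cs (π / 2) * cs v.2)) =
      e1 (D.pu1 ((sh a c, (a : ℂ) • ζ), L v.1), cs (π / 2) * cs v.2) := fun v => by
    rw [e1, e, e, mul_one, mul_assoc]
    rfl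
  have o3 := (D.ok_th hζ a).comp (o2.comp zc.ok)
  obtain ⟨s, hs, es⟩ := sign_of_fib (k.gen cl (th.gen (D.isConnected_S Q.conn)))
    (c := pull _ (D.TKz ζ ×ˢ univ) (zs _ _ ×ˢ {a * cs (π / 2)}) (D.thF Q)) ((D.isDeg_thF Q).pull
      (fun w => ((D.fK ζ w.1).1 a, (D.fK ζ w.1).1 w.2)) _ _) (σ := Prod.map (fun v => (c, L v)) id)
    (A := univ ×ˢ univ) (B := {0} ×ˢ {a * cs (π / 2)})
    (by
      rw [map_xq2 o1 .refl, pull_id]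
      exact k.gen (.of_isClosed isClosed_singleton _) (gen_thR_fib rb ho hc (Module.finrank_fin_fun ℝ) i mL))
    (Gen.of_pul (by
      rw [pull_pull zc.ok o2, pull_pull' (o2.comp zc.ok) (D.ok_th hζ a) fun v _ => e' v]
      exact D.nd1' Q ⟨D.inv a c hc, (Sp_smul a).2 hζ⟩ (Module.finrank_fin_fun ℝ) i
        (fun v => (D.invK a (c, ζ) ⟨hc, hζ⟩).symm ▸ mL v) (isOpen_univ.prod (cE _).open_source)
        ⟨trivial, cE_src _⟩ fun v h k => o3.mem h ((congrArg (· ∈ D.F) (e' v)).mpr k)) zc)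
  rw [es, map_smul]
  refine Sg_sign ?_ hs
  have o4 : ∀ W, Ok Prod.fst (D.TKz ζ ×ˢ (univ : Set Circle)) (Prod.fst ⁻¹' W) (D.TKz ζ) W := fun W =>
    .of_mem (.of_continuous continuous_fst _) (fun _ h => h.1) fun _ _ k => k
  have := k.gen cl (thZ_gen_mul th (D.gen_sS Q))
  rw [xq, pull_cm (o4 _), pull_pull' (F := fun w => w.1.1) (T.Ok.top (o4 univ)) th.base.ok fun _ _ => rfl] at this
  have ca := cup_assoc (U := D.TKz ζ ×ˢ univ) (Z := zs _ _ ×ˢ {a * cs (π / 2)}) (V := D.TKz ζ ×ˢ univ)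
    (W := Prod.fst ⁻¹' zs _ _) (V' := D.TKz ζ ×ˢ univ) (W' := zs _ _ ×ˢ {a * cs (π / 2)})
    (cupU _ _) (cupOK fun _ _ u v => mk_mem_prod u v) (cupOK fun _ _ u v => mk_mem_prod u v) (cupU _ _)
    (pull (fun w => w.1.1) (D.TKz ζ ×ˢ univ) univ (D.sS Q))
    (pull Prod.fst (D.TKz ζ ×ˢ univ) (Prod.fst ⁻¹' zs _ _) (thR (fun c => D.K (c, ζ)) 7 D.S o))
    (pull Prod.snd (D.TKz ζ ×ˢ univ) (Prod.snd ⁻¹' {a * cs (π / 2)}) ϖ)
  exact ca ▸ this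

theorem ld3 (h : (p, q) ∈ D.Nb \ Dg V) : Gen 38 (pull (D.fK ζ) (D.TKz ζ) (zs _ _) (D.dl2 Q p q)) := by
  have cu := D.cut_ev1 h
  have gc := D.gen_cut Q h
  set t := (D.iv (p, q)).2
  have cl : Cl (D.TKz ζ) (zs _ _) := .of_isClosed isClosed_zsR _
  have key : ∀ v ∈ D.TKz ζ, ∀ τ, (D.fK ζ v, τ) ∈ e2 ⁻¹' D.Z2 p q → v.2 = 0 ∧ τ.1 = τ.2 * cs (π / 2) ∧
      ev1 (v.1, τ.2) ∈ ({p} ×ˢ {q} : Set (V × V)) ∧ (τ ∈ Rg2 ↔ τ.2 ∈ Upc) := fun v hv τ k => by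
    obtain ⟨k1, k2⟩ := D.fK_F hζ hv k.2.1
    have k3 : ev1 (v.1, τ.2) ∈ ({p} ×ˢ {q} : Set (V × V)) := D.fK_zero hζ hv k1 ▸ ⟨k.1, k.2.2⟩
    refine ⟨k1, k2, k3, (show (τ.2 * cs (π / 2), τ.2) = τ from Prod.ext k2.symm rfl) ▸ reg_Upc fun a => h.1.2 ?_⟩
    exact (show ev1 (v.1, τ.2) = (p, q) from Prod.ext k3.1 k3.2) ▸ (D.cut_iff hv.1).2 a
  refine gen_JJ0 (D.jok2 h) top_w2 (ptG_w2 (t * cs (π / 2), t)) (D.ok_fK hζ) cl (fun v hv τ k r => ?_)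
    fun c o => ?_
  · obtain ⟨-, k1, k2, k3⟩ := key v hv τ k
    have : τ.2 = t := (cu.sub (v.1, τ.2) ⟨hv.1, trivial⟩ k2 ⟨trivial, k3.1 r⟩).2
    exact Prod.ext (this ▸ k1) this
  set E : Set ((LM V × RN D.N) × T2) := D.TKz ζ ×ˢ univ
  set A := Prod.map (D.fK ζ) id ⁻¹' (e2 ⁻¹' D.Z2 p q)
  set W : Set ((LM V × RN D.N) × T2) := zs _ _ ×ˢ {(t * cs (π / 2), t)}
  let pr : (LM V × RN D.N) × T2 → LM V × Circle := fun w => (w.1.1, w.2.2)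
  let p1 : (LM V × RN D.N) × T2 → (LM V × RN D.N) × Circle := fun w => (w.1, w.2.1)
  let Z1 : Set ((LM V × RN D.N) × T2) := {w | w.1.2 = 0 ∧ w.2.1 = w.2.2 * cs (π / 2)}
  have op : ∀ B, Ok pr E (pr ⁻¹' B) (D.S ×ˢ univ) B := fun B =>
    .of_mem (.of_continuous (by fun_prop) _) (fun _ k => ⟨k.1.1, trivial⟩) fun _ _ k => k
  have o1 : ∀ B, Ok p1 E (p1 ⁻¹' B) (D.TKz ζ ×ˢ univ) B := fun B =>
    .of_mem (.of_continuous (by fun_prop) _) (fun _ k => ⟨k.1, trivial⟩) fun _ _ k => k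
  have mm : ∀ w ∈ E, ∀ a b, ((D.fK ζ w.1).1 a, (D.fK ζ w.1).1 b) ∈ 𝕄.MM := fun _ k _ _ =>
    ⟨(D.fK_mem hζ k.1).1 _, (D.fK_mem hζ k.1).1 _⟩
  have oθ : Ok (fun w => ((D.fK ζ w.1).1 w.2.2, (D.fK ζ w.1).1 w.2.1)) E Z1 𝕄.MM D.F :=
    .of_mem ((D.ext_fK hζ continuous_snd).prodMk (D.ext_fK hζ continuous_fst)) (fun _ k => mm _ k _ _)
      fun _ k => D.fK_F hζ k.1
  have oα : Ok (fun w => ((D.fK ζ w.1).1 1, (D.fK ζ w.1).1 w.2.2)) E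
      {w | (D.fK ζ w.1).1 1 = p ∧ (D.fK ζ w.1).1 w.2.2 = q} 𝕄.MM ({p} ×ˢ {q}) :=
    .of_mem ((D.ext_fK hζ continuous_const).prodMk (D.ext_fK hζ continuous_snd)) (fun _ k => mm _ k _ _)
      fun _ _ k => k
  have s1 : ∀ w ∈ E, (D.fK ζ w.1).1 1 = p ∧ (D.fK ζ w.1).1 w.2.2 = q → w ∈ Z1 → w ∈ A := fun w a u v =>
    ⟨u.1, show ((D.fK ζ w.1).1 w.2.2, (D.fK ζ w.1).1 w.2.1) ∈ D.F by
      rw [D.fK_zero hζ a.1 v.1, v.2, ← sh_apply, ← sh_at_one w.2.2]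
      exact D.en_mem (D.inv _ _ a.1.1), u.2⟩
  have s2 : ∀ w ∈ E, w ∈ pr ⁻¹' (ev1 ⁻¹' {p} ×ˢ {q}) → w ∈ Z1 → w ∈ A := fun w a u v =>
    s1 w a ((D.fK_zero hζ a.1 v.1).symm ▸ u) v
  have s3 : ∀ w ∈ E, w ∈ Z1 → w ∈ pr ⁻¹' (univ ×ˢ {t}) → w ∈ W := fun w _ u v =>
    ⟨u.1, Prod.ext (u.2.trans (congrArg (· * _) v.2)) v.2⟩
  have s4 : ∀ w ∈ E, w ∈ p1 ⁻¹' (zs _ _ ×ˢ {t * cs (π / 2)}) → w.2.2 = t → w ∈ W :=
    fun w _ u v => ⟨u.1, Prod.ext u.2 v⟩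
  have c2 : CutOK (pr ⁻¹' (univ ×ˢ Upc)) E (pr ⁻¹' (ev1 ⁻¹' {p} ×ˢ {q})) (pr ⁻¹' (univ ×ˢ {t})) :=
    ⟨fun w a u b => cu.nf _ ((op univ).maps a) u (Continuous.frontier_preimage_subset (f := pr) (by fun_prop) _ b),
      fun w a => cu.sub _ ((op univ).maps a)⟩
  have c1 : CutOK (pr ⁻¹' (univ ×ˢ Upc)) E A W :=
    ⟨fun w a u => c2.nf w a (key _ a.1 _ u).2.2.1,
      fun w a u v => c.sub w a u ⟨trivial, (key _ a.1 _ u).2.2.2.2 v.2⟩⟩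
  have oe : Ok ev1 (D.S ×ˢ univ) (ev1 ⁻¹' {p} ×ˢ {q}) 𝕄.MM ({p} ×ˢ {q}) := D.ok_ev1 fun _ _ k => k
  obtain ⟨ϖ, -, k, -⟩ := (ptW_dt t).ex
  obtain ⟨s, hs, es⟩ := (k.gen (.univ _) (D.gen_sS Q)).eq_sign gc
  have dθ := (D.isDeg_thF Q).pull (fun w => ((D.fK ζ w.1).1 w.2.2, (D.fK ζ w.1).1 w.2.1)) E Z1
  rw [pull_pull o D.ok_e2, D.pull_om2 Q (B₂ := Z1) (D.ok_e2.comp o) (fun _ _ u v => And.intro u v)
    (fun _ => oθ.mem) s1]
  change Gen _ (cutH _ E W (cup E A (pull (fun w => ((D.fK ζ w.1).1 1, (D.fK ζ w.1).1 w.2.2)) E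
    {w | (D.fK ζ w.1).1 1 = p ∧ (D.fK ζ w.1).1 w.2.2 = q} _)
      (pull (fun w => ((D.fK ζ w.1).1 w.2.2, (D.fK ζ w.1).1 w.2.1)) E Z1 _)))
  rw [cup_congr_left oα (oe.comp (op _))
      (fun w a u => by rw [D.fK_zero hζ a.1 u.1]; rfl) s1 s2, ← pull_pull (op _) oe,
    c.congr c1 fun w a u => by simpa [pr] using (key _ a.1 _ u).2.2.2,
    c1.cut_cup c2 (cupOK s2) (cupOK fun w a u v => s3 w a v u),
    ← cu.pul c2 (op _) (op _) fun _ _ _ => Iff.rfl, es, map_smul, map_smul, LinearMap.smul_apply]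
  refine Sg_sign ?_ hs
  rw [cup_comm_even (p := 4) (cupOK s3) dθ, cup_congr_left oθ ((D.ok_th hζ t).comp (o1 _))
    (fun w _ u => by rw [show w.2.2 = t from u.2]; rfl) s3 fun w a u v => s4 w a u v.2,
    ← pull_pull (o1 _) (D.ok_th hζ t), pull_xq (Z := univ) (B₁ := univ) (B₂ := {w | w.2.2 = t}) subset_rfl
      (fun _ _ a b => mk_mem_prod a b) (op (univ ×ˢ {t})) (fun _ _ _ => trivial) (fun _ _ u => u)
      fun _ _ _ u => ⟨trivial, u⟩]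
  have z : ZB (fun w => (p1 w, w.2.2)) E W ((D.TKz ζ ×ˢ univ) ×ˢ univ) ((zs _ _ ×ˢ {t * cs (π / 2)}) ×ˢ {t}) :=
    .of_inv (s := fun x => (x.1.1, x.1.2, x.2))
      (.of_mem (.of_continuous (by fun_prop) _) (fun _ a => ⟨⟨a.1, trivial⟩, trivial⟩)
        fun w a u => s4 w a u.1 u.2)
      (.of_mem (.of_continuous (by fun_prop) _) (fun _ a => ⟨a.1.1, trivial⟩)
        fun _ _ a => ⟨⟨a.1, congrArg Prod.fst a.2⟩, congrArg Prod.snd a.2⟩) (fun _ _ => rfl) fun _ _ => rfl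
  have := (k.gen (cl_prod cl _ _) (D.gen_th Q hζ t)).pul z
  rw [pull_xq (B₁ := p1 ⁻¹' (zs _ _ ×ˢ {t * cs (π / 2)})) (B₂ := {w | w.2.2 = t}) subset_rfl
    (fun _ _ a b => mk_mem_prod a b) z.ok (fun _ _ u => u) (fun _ _ u => u) s4] at this
  change Gen _ (cup E W (pull p1 E _ _) _) at this
  rwa [pull_cm (o1 _), pull_pull' (F := fun w => (pr w).1) (T.Ok.top (o1 univ)) (.of_mem (.of_continuous (by fun_prop) _)
    (fun _ a => a.1.1) fun _ _ _ => trivial) fun _ _ => rfl,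
    cup_comm_even (p := 4) (cupU' _ _) (((D.isDeg_thF Q).pull _ _ _).pull _ _ _),
    cup_assoc (V' := E) (W' := pr ⁻¹' (univ ×ˢ {t})) (cupU' _ _) (cupOK s4) (cupOK fun _ _ _ u => ⟨trivial, u⟩)
      (cupOK fun w a u v => s4 w a u v.2)] at this

end TD

end Pool.Agent.Work.MP_8c604c_gt.OT
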